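import Pool.Agent.H867.FT.Gen

/-!
# Cartier maps on power series rings over perfect fields
-/

set_option autoImplicit false

namespace Pool.Agent.H261.FT867

open Pool.Agent.H867.FT MvPowerSeries

section

variable (p : ℕ) [Fact p.Prime] (k : Type) [Field k] [CharP k p] [PerfectRing k p] (d e : ℕ)

omit [PerfectRing k p] in
variable {p k d e} in
theorem coeff_smul_pow (r : MvPowerSeries (Fin d) k) (m : Fin d →₀ ℕ) :
    coeff (p ^ e • m) (r ^ p ^ e) = (coeff m r) ^ p ^ e := by
  have hp : p ≠ 0 := (Fact.out : p.Prime).ne_zero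
  rw [← map_iterateFrobenius_expand p hp r e, coeff_map, coeff_expand_smul, iterateFrobenius_def]

omit [PerfectRing k p] in
variable {p k d e} in
theorem coeff_pow_of_not_dvd (r : MvPowerSeries (Fin d) k) {m : Fin d →₀ ℕ} {i : Fin d}
    (h : ¬ p ^ e ∣ m i) : coeff m (r ^ p ^ e) = 0 := by
  have hp : p ≠ 0 := (Fact.out : p.Prime).ne_zero
  rw [← map_iterateFrobenius_expand p hp r e, coeff_map, coeff_expand_of_not_dvd _ _ _ h, map_zero]

/-- The components of a power series. -/
noncomputable def cmp (a : Fin d →₀ ℕ) : MvPowerSeries (Fin d) k →+ MvPowerSeries (Fin d) k where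
  toFun g := fun b => (iterateFrobeniusEquiv k p e).symm (coeff (p ^ e • b + a) g)
  map_zero' := by
    funext b
    show (iterateFrobeniusEquiv k p e).symm (coeff (p ^ e • b + a) 0) = 0
    rw [map_zero, map_zero]
  map_add' g h := by
    funext b
    show (iterateFrobeniusEquiv k p e).symm (coeff (p ^ e • b + a) (g + h)) =
      (iterateFrobeniusEquiv k p e).symm (coeff (p ^ e • b + a) g) +
        (iterateFrobeniusEquiv k p e).symm (coeff (p ^ e • b + a) h)
    rw [map_add, map_add]

theorem coeff_cmp (a b : Fin d →₀ ℕ) (g : MvPowerSeries (Fin d) k) :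
    coeff b (cmp p k d e a g) = (iterateFrobeniusEquiv k p e).symm (coeff (p ^ e • b + a) g) :=
  rfl

theorem coeff_cmp_pow (a b : Fin d →₀ ℕ) (g : MvPowerSeries (Fin d) k) :
    (coeff b (cmp p k d e a g)) ^ p ^ e = coeff (p ^ e • b + a) g := by
  rw [coeff_cmp, ← iterateFrobeniusEquiv_def, RingEquiv.apply_symm_apply]

/-- exponents in the box -/
noncomputable def ex {q : ℕ} (a : Fin d → Fin q) : Fin d →₀ ℕ :=
  Finsupp.equivFunOnFinite.symm fun i => (a i : ℕ)

@[simp] theorem ex_apply {q : ℕ} (a : Fin d → Fin q) (i : Fin d) : ex d a i = (a i : ℕ) := rfl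

theorem cmp_cartier (a : Fin d → Fin (p ^ e)) : IsCartier (p ^ e) (cmp p k d e (ex d a)) := by
  classical
  intro r s
  ext b
  have hq : 0 < p ^ e := pow_pos (Fact.out : p.Prime).pos _
  apply (iterateFrobeniusEquiv k p e).injective
  rw [coeff_cmp, RingEquiv.apply_symm_apply, coeff_mul, coeff_mul, map_sum]
  symm
  apply Finset.sum_of_injOn (fun z : (Fin d →₀ ℕ) × (Fin d →₀ ℕ) =>
    (p ^ e • z.1, p ^ e • z.2 + ex d a))
  · rintro ⟨x, y⟩ - ⟨x', y'⟩ - h
    simp only [Prod.mk.injEq, add_left_inj] at h
    have h1 : x = x' := by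
      ext i
      have := DFunLike.congr_fun h.1 i
      simp only [Finsupp.smul_apply, smul_eq_mul] at this
      exact Nat.eq_of_mul_eq_mul_left hq this
    have h2 : y = y' := by
      ext i
      have := DFunLike.congr_fun h.2 i
      simp only [Finsupp.smul_apply, smul_eq_mul] at this
      exact Nat.eq_of_mul_eq_mul_left hq this
    rw [h1, h2]
  · rintro ⟨x, y⟩ h
    rw [Finset.mem_coe, Finset.HasAntidiagonal.mem_antidiagonal] at h ⊢
    simp only at h ⊢
    rw [← add_assoc, ← smul_add, h]
  · rintro ⟨x, y⟩ h hn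
    rw [Finset.HasAntidiagonal.mem_antidiagonal] at h
    simp only at h ⊢
    by_cases hd : ∀ i, p ^ e ∣ x i
    · exfalso
      apply hn
      -- the quotient
      have hx : ∀ i, p ^ e * (x i / p ^ e) = x i := fun i => Nat.mul_div_cancel' (hd i)
      have hsum : ∀ i, x i + y i = p ^ e * b i + a i := fun i => by
        have := DFunLike.congr_fun h i
        simpa using this
      have hle : ∀ i, x i / p ^ e ≤ b i := by
        intro i
        have h1 := hsum i
        have h2 := (a i).isLt
        have h3 : p ^ e * (x i / p ^ e) < p ^ e * (b i + 1) := by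
          rw [hx, mul_add, mul_one]
          omega
        exact Nat.lt_succ_iff.1 (Nat.lt_of_mul_lt_mul_left h3)
      refine ⟨(x.mapRange (· / p ^ e) (Nat.zero_div _), b - x.mapRange (· / p ^ e) (Nat.zero_div _)),
        ?_, ?_⟩
      · rw [Finset.mem_coe, Finset.HasAntidiagonal.mem_antidiagonal]
        simp only
        apply add_tsub_cancel_of_le
        intro i
        rw [Finsupp.mapRange_apply]
        exact hle i
      · simp only [Prod.mk.injEq]
        constructor
        · ext i
          simp only [Finsupp.smul_apply, smul_eq_mul, Finsupp.mapRange_apply]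
          exact hx i
        · ext i
          simp only [Finsupp.smul_apply, smul_eq_mul, Finsupp.mapRange_apply, Finsupp.add_apply,
            Finsupp.tsub_apply, ex_apply]
          have h1 := hsum i
          have h2 : p ^ e * (b i - x i / p ^ e) = p ^ e * b i - x i := by
            rw [Nat.mul_sub, hx]
          have h3 : x i ≤ p ^ e * b i := by
            rw [← hx i]
            exact Nat.mul_le_mul_left _ (hle i)
          omega
    · push Not at hd
      obtain ⟨i, hi⟩ := hd
      rw [coeff_pow_of_not_dvd r hi, zero_mul]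
  · rintro ⟨x, y⟩ -
    simp only
    rw [map_mul, iterateFrobeniusEquiv_def, iterateFrobeniusEquiv_def, coeff_cmp_pow,
      coeff_smul_pow]

theorem expansion (g : MvPowerSeries (Fin d) k) :
    ∑ a : Fin d → Fin (p ^ e), (cmp p k d e (ex d a) g) ^ p ^ e * monomial (ex d a) (1 : k) = g := by
  classical
  have hq : 0 < p ^ e := pow_pos (Fact.out : p.Prime).pos _
  ext n
  obtain ⟨b, c, rfl⟩ : ∃ (b : Fin d →₀ ℕ) (c : Fin d → Fin (p ^ e)), n = p ^ e • b + ex d c := by
    refine ⟨n.mapRange (· / p ^ e) (Nat.zero_div _),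
      fun i => (⟨n i % p ^ e, Nat.mod_lt _ hq⟩ : Fin (p ^ e)), ?_⟩
    ext i
    simp only [Finsupp.smul_apply, smul_eq_mul, Finsupp.mapRange_apply, Finsupp.add_apply,
      ex_apply]
    exact (Nat.div_add_mod _ _).symm
  rw [map_sum, Finset.sum_eq_single c]
  · rw [coeff_add_mul_monomial, mul_one, coeff_smul_pow, coeff_cmp_pow]
  · intro a _ ha
    rw [coeff_mul_monomial]
    split_ifs with hle
    · rw [mul_one]
      by_cases hd : ∀ i, p ^ e ∣ (p ^ e • b + ex d c - ex d a) i
      · exfalso
        apply ha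
        funext i
        apply Fin.ext
        obtain ⟨t, ht⟩ := hd i
        have h1 : (a i : ℕ) ≤ p ^ e * b i + c i := hle i
        rw [Finsupp.tsub_apply, Finsupp.add_apply, Finsupp.smul_apply, smul_eq_mul, ex_apply,
          ex_apply] at ht
        have h2 : p ^ e * b i + c i = a i + p ^ e * t := by omega
        have h3 : (p ^ e * b i + c i) % p ^ e = (a i + p ^ e * t) % p ^ e := by rw [h2]
        rw [Nat.add_mul_mod_self_left, Nat.mod_eq_of_lt (a i).isLt, Nat.mul_add_mod,
          Nat.mod_eq_of_lt (c i).isLt] at h3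
        exact h3.symm
      · push Not at hd
        obtain ⟨i, hi⟩ := hd
        exact coeff_pow_of_not_dvd _ hi
    · rfl
  · intro h
    exact absurd (Finset.mem_univ _) h

end

theorem psc : S_PSC := by
  intro p _ k _ _ _ d e
  classical
  have hq : 0 < p ^ e := pow_pos (Fact.out : p.Prime).pos _
  let top : Fin d → Fin (p ^ e) := fun _ => ⟨p ^ e - 1, Nat.sub_lt hq one_pos⟩
  let cp : (Fin d → Fin (p ^ e)) → (Fin d → Fin (p ^ e)) := fun a i =>
    ⟨p ^ e - 1 - a i, by omega⟩
  have hcp : ∀ a, ex d (cp a) + ex d a = ex d top := by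
    intro a
    ext i
    simp only [Finsupp.add_apply, ex_apply, cp, top]
    have := (a i).isLt
    omega
  have hT : ∀ (a : Fin d → Fin (p ^ e)) (g : MvPowerSeries (Fin d) k),
      cmp p k d e (ex d top) (monomial (ex d (cp a)) (1 : k) * g) = cmp p k d e (ex d a) g := by
    intro a g
    ext b
    rw [coeff_cmp, coeff_cmp]
    have h1 : p ^ e • b + ex d top = ex d (cp a) + (p ^ e • b + ex d a) := by
      rw [← hcp a]
      abel
    rw [h1, coeff_add_monomial_mul, one_mul]
  have hC := cmp_cartier p k d e top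
  refine ⟨cmp p k d e (ex d top), hC, fun ψ hψ => ?_, fun u hu => ?_⟩
  · refine ⟨∑ a : Fin d → Fin (p ^ e), (ψ (monomial (ex d a) (1 : k))) ^ p ^ e *
      monomial (ex d (cp a)) (1 : k), fun g => ?_⟩
    rw [Finset.sum_mul, map_sum]
    conv_lhs => rw [← expansion p k d e g, map_sum]
    refine Finset.sum_congr rfl fun a _ => ?_
    rw [hψ, mul_assoc, hC, hT, mul_comm]
  · rw [← expansion p k d e u]
    apply Finset.sum_eq_zero
    intro a _
    have h1 := hu (monomial (ex d (cp a)) (1 : k))
    rw [mul_comm, hT] at h1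
    rw [h1, zero_pow hq.ne', zero_mul]

end Pool.Agent.H261.FT867
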