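import Pool.Agent.H683.CV.Stm

set_option autoImplicit false

/-!
# GREEDY: the greedy cluster vertex deletion set (by helper261)
-/

namespace Pool.Agent.H261.CVG

open Pool.Agent.NPC Pool.Agent.H633R2 Pool.Agent.H683.CV

theorem nin_iff (S : List ℕ) (u : ℕ) : nin S u = true ↔ u ∉ S := by
  unfold nin
  rw [List.all_eq_true]
  constructor
  · intro h hu
    have := h u hu
    simp at this
  · intro h s hs
    have : s ≠ u := fun e => h (e ▸ hs)
    simp [this]

theorem mem_triples (n a b c : ℕ) : (a, b, c) ∈ triples n ↔ a < n ∧ b < n ∧ c < n := by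
  unfold triples
  simp only [List.mem_flatMap, List.mem_map, List.mem_range, Prod.mk.injEq]
  constructor
  · rintro ⟨a', ha, b', hb, c', hc, e1, e2, e3⟩
    subst e1; subst e2; subst e3
    exact ⟨ha, hb, hc⟩
  · rintro ⟨ha, hb, hc⟩
    exact ⟨a, ha, b, hb, c, hc, rfl, rfl, rfl⟩

theorem badT_iff (M : List (List Bool)) (S : List ℕ) (a b c : ℕ) :
    badT M S (a, b, c) = true ↔ a ∉ S ∧ b ∉ S ∧ c ∉ S ∧ adj M a b = true ∧ adj M b c = true ∧
      a ≠ c ∧ adj M a c = false := by
  unfold badT
  simp only [Bool.and_eq_true, nin_iff, decide_eq_true_eq, Bool.not_eq_true', and_assoc]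

theorem adj_ne {M : List (List Bool)} {u v : ℕ} (h : adj M u v = true) : u ≠ v := by
  unfold adj at h
  rw [Bool.and_eq_true, decide_eq_true_eq] at h
  exact h.1

theorem adj_iff (M : List (List Bool)) (u v : Fin M.length) :
    (graphOf M).Adj u v ↔ adj M u v = true := by
  unfold adj
  rw [Bool.and_eq_true, Bool.or_eq_true, decide_eq_true_eq]
  constructor
  · intro h
    exact ⟨fun e => h.1 (Fin.ext e), h.2⟩
  · intro h
    exact ⟨fun e => h.1 (congrArg Fin.val e), h.2⟩

/-- the invariant -/
def Inv (M : List (List Bool)) (S : List ℕ) : Prop :=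
  S.Nodup ∧ (∀ v ∈ S, v < M.length) ∧ ∀ X : Finset (Fin M.length), IsCvdSet M X →
    S.length ≤ 3 * (X.filter fun v => v.val ∈ S).card

theorem find_some {M : List (List Bool)} {S : List ℕ} {t : ℕ × ℕ × ℕ}
    (h : (triples M.length).find? (badT M S) = some t) :
    (t.1 < M.length ∧ t.2.1 < M.length ∧ t.2.2 < M.length) ∧
    (t.1 ∉ S ∧ t.2.1 ∉ S ∧ t.2.2 ∉ S ∧ adj M t.1 t.2.1 = true ∧ adj M t.2.1 t.2.2 = true ∧
      t.1 ≠ t.2.2 ∧ adj M t.1 t.2.2 = false) := by
  obtain ⟨a, b, c⟩ := t
  exact ⟨(mem_triples _ _ _ _).1 (List.mem_of_find?_eq_some h),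
    (badT_iff _ _ _ _ _).1 (List.find?_some h)⟩

theorem hit {M : List (List Bool)} {a b c : ℕ} (ha : a < M.length) (hb : b < M.length)
    (hc : c < M.length) (h1 : adj M a b = true) (h2 : adj M b c = true) (h3 : a ≠ c)
    (h4 : adj M a c = false) (X : Finset (Fin M.length)) (hX : IsCvdSet M X) :
    (⟨a, ha⟩ : Fin M.length) ∈ X ∨ (⟨b, hb⟩ : Fin M.length) ∈ X ∨
      (⟨c, hc⟩ : Fin M.length) ∈ X := by
  by_contra hcon
  rw [not_or, not_or] at hcon
  obtain ⟨na, nb, nc⟩ := hcon
  obtain ⟨f, hf⟩ := hX
  have e1 : f ⟨a, ha⟩ = f ⟨b, hb⟩ := by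
    refine (hf _ _ na nb ?_).1 ((adj_iff M _ _).2 h1)
    intro e
    exact adj_ne h1 (congrArg Fin.val e)
  have e2 : f ⟨b, hb⟩ = f ⟨c, hc⟩ := by
    refine (hf _ _ nb nc ?_).1 ((adj_iff M _ _).2 h2)
    intro e
    exact adj_ne h2 (congrArg Fin.val e)
  have e3 : (graphOf M).Adj ⟨a, ha⟩ ⟨c, hc⟩ := by
    refine (hf _ _ na nc ?_).2 (e1.trans e2)
    intro e
    exact h3 (congrArg Fin.val e)
  rw [adj_iff] at e3
  simp only at e3
  rw [h4] at e3
  exact Bool.noConfusion e3

theorem inv_step {M : List (List Bool)} {S : List ℕ} (h : Inv M S) : Inv M (gstep M S) := by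
  unfold gstep
  rcases hf : (triples M.length).find? (badT M S) with _ | t
  · exact h
  · obtain ⟨⟨l1, l2, l3⟩, n1, n2, n3, a1, a2, ne, a3⟩ := find_some hf
    obtain ⟨hn, hv, hX⟩ := h
    have ne1 := adj_ne a1
    have ne2 := adj_ne a2
    refine ⟨?_, ?_, ?_⟩
    · simp only [List.nodup_cons, List.mem_cons, not_or]
      exact ⟨⟨ne1, ne, n1⟩, ⟨ne2, n2⟩, n3, hn⟩
    · intro v hv'
      simp only [List.mem_cons] at hv'
      rcases hv' with rfl | rfl | rfl | hv'
      · exact l1
      · exact l2
      · exact l3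
      · exact hv v hv'
    · intro X hXX
      have h0 := hX X hXX
      have key : (X.filter fun v => v.val ∈ S).card + 1 ≤
          (X.filter fun v => v.val ∈ t.1 :: t.2.1 :: t.2.2 :: S).card := by
        have hex : ∃ x : Fin M.length, x ∈ X ∧ x.val ∉ S ∧ x.val ∈ t.1 :: t.2.1 :: t.2.2 :: S := by
          rcases hit l1 l2 l3 a1 a2 ne a3 X hXX with h | h | h
          · exact ⟨_, h, n1, by simp⟩
          · exact ⟨_, h, n2, by simp⟩
          · exact ⟨_, h, n3, by simp⟩
        obtain ⟨x, hx1, hx2, hx3⟩ := hex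
        rw [← Finset.card_insert_of_notMem (s := X.filter fun v => v.val ∈ S) (a := x)
          (fun hm => hx2 (Finset.mem_filter.1 hm).2)]
        apply Finset.card_le_card
        intro y hy
        rw [Finset.mem_insert] at hy
        rw [Finset.mem_filter]
        rcases hy with rfl | hy
        · exact ⟨hx1, hx3⟩
        · rw [Finset.mem_filter] at hy
          exact ⟨hy.1, List.mem_cons_of_mem _ (List.mem_cons_of_mem _ (List.mem_cons_of_mem _ hy.2))⟩
      simp only [List.length_cons]
      omega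

theorem inv_iter (M : List (List Bool)) (k : ℕ) : Inv M ((gstep M)^[k] []) := by
  induction k with
  | zero =>
    refine ⟨List.nodup_nil, ?_, ?_⟩
    · intro v hv
      simp at hv
    · intro X _
      simp
  | succ k ih =>
    rw [Function.iterate_succ_apply']
    exact inv_step ih

theorem prog (M : List (List Bool)) (k : ℕ) :
    (triples M.length).find? (badT M ((gstep M)^[k] [])) = none ∨
      3 * k ≤ ((gstep M)^[k] []).length := by
  induction k with
  | zero => right; simp
  | succ k ih =>
    rw [Function.iterate_succ_apply']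
    rcases hf : (triples M.length).find? (badT M ((gstep M)^[k] [])) with _ | t
    · left
      have e : gstep M ((gstep M)^[k] []) = (gstep M)^[k] [] := by
        unfold gstep
        unfold gstep at hf
        rw [hf]
      rw [e]
      exact hf
    · right
      rcases ih with ih | ih
      · rw [hf] at ih
        exact absurd ih (by simp)
      · have e : gstep M ((gstep M)^[k] []) = t.1 :: t.2.1 :: t.2.2 :: (gstep M)^[k] [] := by
          generalize (gstep M)^[k] [] = S at hf
          unfold gstep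
          rw [hf]
        rw [e]
        simp only [List.length_cons]
        omega

theorem len_le {n : ℕ} {S : List ℕ} (h1 : S.Nodup) (h2 : ∀ v ∈ S, v < n) : S.length ≤ n := by
  classical
  rw [← List.toFinset_card_of_nodup h1]
  calc S.toFinset.card ≤ (Finset.range n).card := by
        apply Finset.card_le_card
        intro v hv
        rw [List.mem_toFinset] at hv
        exact Finset.mem_range.2 (h2 v hv)
    _ = n := Finset.card_range n

theorem GREEDY : S_GREEDY := by
  intro M
  obtain ⟨hn, hv, hX⟩ := inv_iter M M.length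
  have hg : gS M = (gstep M)^[M.length] [] := rfl
  rw [← hg] at hn hv hX
  have hp := prog M M.length
  rw [← hg] at hp
  constructor
  · refine ⟨hn, hv, ?_⟩
    intro a ha b hb c hc na nb nc h1 h2 h3
    by_contra h4
    have h4' : adj M a c = false := by simpa using h4
    have hbad : badT M (gS M) (a, b, c) = true :=
      (badT_iff _ _ _ _ _).2 ⟨na, nb, nc, h1, h2, h3, h4'⟩
    rcases hp with hp | hp
    · rw [List.find?_eq_none] at hp
      exact hp (a, b, c) ((mem_triples _ _ _ _).2 ⟨ha, hb, hc⟩) hbad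
    · have := len_le hn hv
      omega
  · have hne : {k | ∃ S : Finset (Fin M.length), IsCvdSet M S ∧ S.card = k}.Nonempty := by
      refine ⟨_, Finset.univ, ⟨fun _ => 0, ?_⟩, rfl⟩
      intro u v hu
      exact absurd (Finset.mem_univ u) hu
    obtain ⟨X, hX1, hX2⟩ := Nat.sInf_mem hne
    have h1 := hX X hX1
    have h2 : (X.filter fun v => v.val ∈ gS M).card ≤ X.card := Finset.card_filter_le _ _
    have h3 : cvd M = X.card := by rw [hX2]; rfl
    rw [h3]
    omega

end Pool.Agent.H261.CVG
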