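import Pool.Agent.H867.FT.Gen4
import Pool.Agent.H597.FT867CUB

/-!
# ECD: the codifferent of a cubic ring with explicit `y₀ = 1 / F'(x)`
-/

set_option autoImplicit false

namespace Pool.Agent.H261.FT867ECD

open Pool.Agent.H867.FT Pool.Agent.H597.FT867CUB

/-- The codifferent. -/
def codiff (P R L K : Type) [CommRing P] [CommRing R]
    [Field L] [Algebra P L] [Field K] [Algebra R K] [Algebra L K] : Submodule R K where
  carrier := {y | ∀ r : R, ∃ g : P, algebraMap P L g = Algebra.trace L K (y * algebraMap R K r)}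
  add_mem' := by
    intro y z hy hz r
    obtain ⟨g, hg⟩ := hy r
    obtain ⟨h, hh⟩ := hz r
    exact ⟨g + h, by rw [map_add, hg, hh, add_mul, map_add]⟩
  zero_mem' := fun r => ⟨0, by rw [zero_mul, map_zero, map_zero]⟩
  smul_mem' := by
    intro s y hy r
    obtain ⟨g, hg⟩ := hy (s * r)
    refine ⟨g, ?_⟩
    have e : (s • y) * algebraMap R K r = y * algebraMap R K (s * r) := by
      rw [Algebra.smul_def, (algebraMap R K).map_mul]
      ring
    rw [hg, e]

theorem ecd : Pool.Agent.H867.FT.S_ECD := by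
  intro P R L K _ _ _ _ _ _ _ _ _ _ _ _ _ _ _ _ _ a b c d x ω θ ha hfin hroot hω hθ hsp hindx
  have hPL : Function.Injective (algebraMap P L) := IsFractionRing.injective P L
  have hPK : ∀ g : P, algebraMap P K g = algebraMap L K (algebraMap P L g) :=
    fun g => IsScalarTower.algebraMap_apply P L K g
  have hPK' : ∀ g : P, algebraMap R K (algebraMap P R g) = algebraMap P K g :=
    fun g => (IsScalarTower.algebraMap_apply P R K g).symm
  obtain ⟨A, hA⟩ : ∃ A : K, A = algebraMap P K a := ⟨_, rfl⟩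
  obtain ⟨B, hB⟩ : ∃ B : K, B = algebraMap P K b := ⟨_, rfl⟩
  obtain ⟨Cc, hCc⟩ : ∃ Cc : K, Cc = algebraMap P K c := ⟨_, rfl⟩
  obtain ⟨D, hD⟩ : ∃ D : K, D = algebraMap P K d := ⟨_, rfl⟩
  obtain ⟨W, hW⟩ : ∃ W : K, W = algebraMap R K ω := ⟨_, rfl⟩
  obtain ⟨T, hT⟩ : ∃ T : K, T = algebraMap R K θ := ⟨_, rfl⟩
  have haL : algebraMap P L a ≠ 0 := by
    intro h
    exact ha (hPL (by rw [h, map_zero]))
  have ecub : A * x ^ 3 + B * x ^ 2 + Cc * x + D = 0 := by
    rw [hA, hB, hCc, hD]; exact hroot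
  have ex : A * x = W := by rw [hA, hW, hω]
  have eT : T = A * x ^ 2 + B * x + Cc := by rw [hT, hθ, hA, hB, hCc]
  have exT : x * T = -D := by
    rw [eT]; linear_combination ecub
  have e1 : W * T = -(A * D) := by
    rw [← ex]; linear_combination A * exT
  have e3 : T * T = -(B * D) - D * W + Cc * T := by
    rw [← ex]
    linear_combination T * eT + (A * x + B) * exT
  obtain ⟨aL, haL'⟩ : ∃ aL : L, aL = algebraMap P L a := ⟨_, rfl⟩
  obtain ⟨bL, hbL'⟩ : ∃ bL : L, bL = algebraMap P L b := ⟨_, rfl⟩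
  obtain ⟨cL, hcL'⟩ : ∃ cL : L, cL = algebraMap P L c := ⟨_, rfl⟩
  obtain ⟨dL, hdL'⟩ : ∃ dL : L, dL = algebraMap P L d := ⟨_, rfl⟩
  have hAL : algebraMap L K aL = A := by rw [haL', hA, hPK]
  have hBL : algebraMap L K bL = B := by rw [hbL', hB, hPK]
  have hCL : algebraMap L K cL = Cc := by rw [hcL', hCc, hPK]
  have hDL : algebraMap L K dL = D := by rw [hdL', hD, hPK]
  have haL0 : aL ≠ 0 := by rw [haL']; exact haL
  have hA0 : A ≠ 0 := by
    rw [← hAL]
    intro h
    exact haL0 ((map_eq_zero _).1 h)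
  have hli : LinearIndependent L (![1, x, x ^ 2] : Fin 3 → K) := by
    rw [Fintype.linearIndependent_iff]
    intro g hg
    rw [Fin.sum_univ_three] at hg
    simp only [Matrix.cons_val_zero, Matrix.cons_val_one, Matrix.cons_val_two, Matrix.head_cons,
      Matrix.tail_cons, Algebra.smul_def, mul_one] at hg
    obtain ⟨g0, g1, g2⟩ := hindx (g 0) (g 1) (g 2) hg
    intro i
    fin_cases i
    · exact g0
    · exact g1
    · exact g2
  obtain ⟨Bs, hBs⟩ : ∃ Bs : Module.Basis (Fin 3) L K, ⇑Bs = ![1, x, x ^ 2] := by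
    refine ⟨basisOfLinearIndependentOfCardEqFinrank hli (by rw [hfin, Fintype.card_fin]), ?_⟩
    exact coe_basisOfLinearIndependentOfCardEqFinrank _ _
  have B0 : Bs 0 = 1 := by rw [hBs]; rfl
  have B1 : Bs 1 = x := by rw [hBs]; rfl
  have B2 : Bs 2 = x ^ 2 := by rw [hBs]; rfl
  have hE := euler Bs x B0 B1 B2 aL bL cL dL haL0 (by rw [hAL, hBL, hCL, hDL]; exact ecub)
  rw [hAL, hBL, hCL] at hE
  obtain ⟨f, hf⟩ : ∃ f : K, f = 3 * A * x ^ 2 + 2 * B * x + Cc := ⟨_, rfl⟩
  rw [← hf] at hE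
  have hf0 : f ≠ 0 := by
    intro h
    apply Algebra.trace_ne_zero L K
    refine LinearMap.ext fun z => ?_
    have h3 := hE z
    rw [h, zero_mul, map_zero, Finsupp.zero_apply] at h3
    exact (mul_eq_zero.1 h3).resolve_left haL0
  have hTr : ∀ l₀ l₁ l₂ : L, Algebra.trace L K (f⁻¹ * (algebraMap L K l₀ + algebraMap L K l₁ * x +
      algebraMap L K l₂ * x ^ 2)) = l₂ / aL := by
    intro l₀ l₁ l₂
    have h3 := hE (f⁻¹ * (algebraMap L K l₀ + algebraMap L K l₁ * x +
      algebraMap L K l₂ * x ^ 2))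
    rw [mul_inv_cancel_left₀ hf0, (rep Bs x B0 B1 B2 l₀ l₁ l₂).2.2] at h3
    rw [eq_div_iff haL0, mul_comm]
    exact h3
  have t1 : ∀ l₀ l₁ l₂ : L, Algebra.trace L K (f⁻¹ * (algebraMap L K l₀ + algebraMap L K l₁ * x +
      algebraMap L K l₂ * T)) = l₂ := by
    intro l₀ l₁ l₂
    have h3 := hTr (l₀ + l₂ * cL) (l₁ + l₂ * bL) (l₂ * aL)
    rw [mul_div_cancel_right₀ _ haL0] at h3
    refine Eq.trans (congrArg _ ?_) h3
    simp only [map_add, map_mul, hAL, hBL, hCL]
    rw [eT]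
    ring
  have t2 : ∀ l₀ l₁ l₂ : L, Algebra.trace L K (f⁻¹ * (algebraMap L K l₀ + algebraMap L K l₁ * x +
      algebraMap L K l₂ * T) * W) = l₁ := by
    intro l₀ l₁ l₂
    have h3 := hTr (-(l₂ * aL * dL)) (l₀ * aL) (l₁ * aL)
    rw [mul_div_cancel_right₀ _ haL0] at h3
    refine Eq.trans (congrArg _ ?_) h3
    simp only [map_neg, map_mul, hAL, hDL]
    linear_combination (f⁻¹ * algebraMap L K l₂) * e1 -
      (f⁻¹ * (algebraMap L K l₀ + algebraMap L K l₁ * x)) * ex
  have t3 : ∀ l₀ l₁ l₂ : L, Algebra.trace L K (f⁻¹ * (algebraMap L K l₀ + algebraMap L K l₁ * x +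
      algebraMap L K l₂ * T) * T) = l₀ + cL * l₂ := by
    intro l₀ l₁ l₂
    have h3 := hTr (l₀ * cL - l₁ * dL - l₂ * bL * dL + l₂ * cL ^ 2)
      (l₀ * bL - l₂ * dL * aL + l₂ * cL * bL) ((l₀ + cL * l₂) * aL)
    rw [mul_div_cancel_right₀ _ haL0] at h3
    refine Eq.trans (congrArg _ ?_) h3
    simp only [map_add, map_sub, map_mul, map_pow, hAL, hBL, hCL, hDL]
    linear_combination (f⁻¹ * algebraMap L K l₂) * e3 + (f⁻¹ * algebraMap L K l₁) * exT +
      (f⁻¹ * (algebraMap L K l₀ + algebraMap L K l₂ * Cc)) * eT +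
      (f⁻¹ * algebraMap L K l₂ * D) * ex
  have hK : ∀ z : K, ∃ l₀ l₁ l₂ : L, z = algebraMap L K l₀ + algebraMap L K l₁ * x +
      algebraMap L K l₂ * T := by
    intro z
    have h := Bs.sum_repr z
    rw [Fin.sum_univ_three, B0, B1, B2, Algebra.smul_def, Algebra.smul_def, Algebra.smul_def,
      mul_one] at h
    refine ⟨Bs.repr z 0 - Bs.repr z 2 / aL * cL, Bs.repr z 1 - Bs.repr z 2 / aL * bL,
      Bs.repr z 2 / aL, ?_⟩
    simp only [map_sub, map_mul, map_div₀, hAL, hBL, hCL]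
    rw [eT]
    conv_lhs => rw [← h]
    field_simp
    ring
  refine ⟨codiff P R L K, f⁻¹, ?_, ⟨ha, inv_ne_zero hf0, hroot, hω, hθ, hsp, hindx, ?_⟩,
    fun y => Iff.rfl, ?_, ?_, ?_⟩
  · rw [← hA, ← hB, ← hCc, ← hf]
    exact mul_inv_cancel₀ hf0
  · intro y
    constructor
    · intro hy
      have hy : ∀ r : R, ∃ g : P, algebraMap P L g = Algebra.trace L K (y * algebraMap R K r) := hy
      obtain ⟨l₀, l₁, l₂, hl⟩ := hK (f * y)
      have hy' : y = f⁻¹ * (algebraMap L K l₀ + algebraMap L K l₁ * x + algebraMap L K l₂ * T) := by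
        rw [← hl, inv_mul_cancel_left₀ hf0]
      obtain ⟨g₂, hg₂⟩ := hy 1
      rw [map_one, mul_one, hy', t1] at hg₂
      obtain ⟨g₁, hg₁⟩ := hy ω
      rw [← hW, hy', t2] at hg₁
      obtain ⟨g₀, hg₀⟩ := hy θ
      rw [← hT, hy', t3] at hg₀
      refine ⟨g₀ - c * g₂, g₁, g₂, ?_⟩
      rw [hy', ← hT]
      simp only [hPK, map_sub, map_mul]
      rw [hg₀, hg₁, hg₂, ← hcL']
      simp only [map_add, map_mul]
      ring
    · rintro ⟨g₀, g₁, g₂, rfl⟩ r
      obtain ⟨r₀, r₁, r₂, rfl⟩ := hsp r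
      refine ⟨r₀ * g₂ + r₁ * g₁ + r₂ * (g₀ + c * g₂), ?_⟩
      have e : f⁻¹ * (algebraMap P K g₀ + algebraMap P K g₁ * x + algebraMap P K g₂ *
          algebraMap R K θ) * algebraMap R K (algebraMap P R r₀ + r₁ • ω + r₂ • θ) =
          (algebraMap P L r₀) • (f⁻¹ * (algebraMap L K (algebraMap P L g₀) +
            algebraMap L K (algebraMap P L g₁) * x + algebraMap L K (algebraMap P L g₂) * T)) +
          (algebraMap P L r₁) • (f⁻¹ * (algebraMap L K (algebraMap P L g₀) +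
            algebraMap L K (algebraMap P L g₁) * x + algebraMap L K (algebraMap P L g₂) * T) * W) +
          (algebraMap P L r₂) • (f⁻¹ * (algebraMap L K (algebraMap P L g₀) +
            algebraMap L K (algebraMap P L g₁) * x + algebraMap L K (algebraMap P L g₂) * T) * T) := by
        rw [Algebra.smul_def, Algebra.smul_def, Algebra.smul_def, Algebra.smul_def,
          Algebra.smul_def, map_add, map_add, map_mul, map_mul, hPK', hPK', hPK', ← hW, ← hT]
        simp only [hPK]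
        ring
      rw [e, LinearMap.map_add, LinearMap.map_add, LinearMap.map_smul, LinearMap.map_smul,
        LinearMap.map_smul, t1, t2, t3]
      simp only [smul_eq_mul, map_add, map_mul]
      rw [hcL']
  · have h := hTr 1 0 0
    rw [map_one, map_zero, zero_mul, zero_mul, add_zero, add_zero, mul_one, zero_div] at h
    exact h
  · have h := hTr 0 1 0
    rw [map_one, map_zero, one_mul, zero_mul, zero_add, add_zero, zero_div] at h
    exact h
  · have h := hTr 0 0 1
    rw [map_one, map_zero, one_mul, zero_mul, zero_add, zero_add] at h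
    rw [← haL', h, mul_one_div_cancel haL0]

end Pool.Agent.H261.FT867ECD
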