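import Pool.Agent.H867.FT.Gen2
import Pool.Agent.H707.FT867PSG

/-!
# RGS (helper867, project FT), by helper261: two parameters generate prime ideals of `k[[X]]`

If the coefficient of `X i₀` in `y ∈ 𝔪` is not zero there is an automorphism of `k[[X]]` with
`X i₀ ↦ y` and `X i ↦ X i` for `i ≠ i₀` (a surjective endomorphism of a noetherian ring is
injective; surjectivity from completeness).
-/

set_option autoImplicit false

namespace Pool.Agent.H261.FT867RGS

open MvPowerSeries IsLocalRing

/-- A surjective endomorphism of a noetherian ring is injective. -/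
theorem inj_of_surj {R : Type} [CommRing R] [IsNoetherianRing R] (φ : R →+* R)
    (h : Function.Surjective φ) : Function.Injective φ := by
  have hmono : ∀ n x, (φ ^ n) x = 0 → (φ ^ (n + 1)) x = 0 := by
    intro n x hx
    rw [pow_succ', RingHom.mul_def, RingHom.comp_apply, hx, map_zero]
  let f : ℕ →o Ideal R := ⟨fun n => RingHom.ker (φ ^ n), monotone_nat_of_le_succ fun n x hx => by
    rw [RingHom.mem_ker] at hx ⊢
    exact hmono n x hx⟩
  obtain ⟨n, hn⟩ := monotone_stabilizes_iff_noetherian.2 ‹IsNoetherianRing R› f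
  have hs : ∀ m, Function.Surjective (φ ^ m : R →+* R) := by
    intro m
    induction m with
    | zero => intro x; exact ⟨x, rfl⟩
    | succ m ih =>
      intro x
      obtain ⟨y, hy⟩ := h x
      obtain ⟨z, hz⟩ := ih y
      refine ⟨z, ?_⟩
      rw [pow_succ', RingHom.mul_def, RingHom.comp_apply, hz, hy]
  rw [injective_iff_map_eq_zero]
  intro x hx
  obtain ⟨y, hy⟩ := hs n x
  have h1 : y ∈ f (n + 1) := by
    show (φ ^ (n + 1)) y = 0
    rw [pow_succ', RingHom.mul_def, RingHom.comp_apply, hy, hx]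
  rw [← hn (n + 1) (Nat.le_succ n)] at h1
  have h2 : (φ ^ n) y = 0 := h1
  rw [← hy, h2]

variable {k : Type} [Field k] {D : ℕ}

/-- The maximal ideal. -/
theorem max_eq : maximalIdeal (MvPowerSeries (Fin D) k) =
    Ideal.span (Set.range fun i : Fin D => (X i : MvPowerSeries (Fin D) k)) :=
  (Pool.Agent.H707.FT867.psg k D).1

/-- Elements of `𝔪 ^ 2`. -/
theorem mem_sq {f : MvPowerSeries (Fin D) k} (h0 : constantCoeff f = 0)
    (h1 : ∀ i, coeff (Finsupp.single i 1) f = 0) :
    f ∈ maximalIdeal (MvPowerSeries (Fin D) k) ^ 2 := by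
  classical
  refine Pool.Agent.H707.FT867.mem_pow 2 f (nat_le_order fun m hm => ?_)
  by_cases hm0 : m = 0
  · rw [hm0, coeff_zero_eq_constantCoeff_apply]
    exact h0
  · obtain ⟨i, hi⟩ := Finsupp.ne_iff.1 hm0
    have hi' : m i ≠ 0 := hi
    have hle : Finsupp.single i 1 ≤ m := by
      rw [Finsupp.single_le_iff]
      omega
    obtain ⟨c, hc⟩ := exists_add_of_le hle
    have hd : Finsupp.degree c = 0 := by
      rw [hc, map_add, Finsupp.degree_single] at hm
      omega
    rw [Finsupp.degree_eq_zero_iff] at hd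
    rw [hc, hd, add_zero]
    exact h1 i

/-- An endomorphism over `k` whose image of `𝔪` generates `𝔪` is surjective. -/
theorem surj (φ : MvPowerSeries (Fin D) k →ₐ[k] MvPowerSeries (Fin D) k)
    (hφ : Ideal.map (φ : MvPowerSeries (Fin D) k →+* MvPowerSeries (Fin D) k)
      (maximalIdeal (MvPowerSeries (Fin D) k)) = maximalIdeal (MvPowerSeries (Fin D) k)) :
    Function.Surjective φ := by
  set 𝔪 := maximalIdeal (MvPowerSeries (Fin D) k) with h𝔪
  have hac : IsAdicComplete 𝔪 (MvPowerSeries (Fin D) k) := by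
    rw [h𝔪, max_eq]
    infer_instance
  have hpow : ∀ n, Ideal.map (φ : MvPowerSeries (Fin D) k →+* MvPowerSeries (Fin D) k) (𝔪 ^ n) =
      𝔪 ^ n := fun n => by rw [Ideal.map_pow, hφ]
  have hmem : ∀ n x, x ∈ 𝔪 ^ n → φ x ∈ 𝔪 ^ n := fun n x hx => by
    rw [← hpow n]
    exact Ideal.mem_map_of_mem _ hx
  -- one step
  have step : ∀ n, ∀ h ∈ 𝔪 ^ n, ∃ x ∈ 𝔪 ^ n, h - φ x ∈ 𝔪 ^ (n + 1) := by
    intro n h hh
    rw [← hpow n] at hh
    refine Submodule.span_induction (p := fun h _ => ∃ x ∈ 𝔪 ^ n, h - φ x ∈ 𝔪 ^ (n + 1))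
      ?_ ?_ ?_ ?_ hh
    · rintro _ ⟨x, hx, rfl⟩
      refine ⟨x, hx, ?_⟩
      have : (φ : MvPowerSeries (Fin D) k →+* MvPowerSeries (Fin D) k) x - φ x = 0 := sub_self _
      rw [this]
      exact Submodule.zero_mem _
    · exact ⟨0, Submodule.zero_mem _, by rw [map_zero, sub_zero]; exact Submodule.zero_mem _⟩
    · rintro a b _ _ ⟨x, hx, hx'⟩ ⟨y, hy, hy'⟩
      refine ⟨x + y, Submodule.add_mem _ hx hy, ?_⟩
      have : a + b - φ (x + y) = (a - φ x) + (b - φ y) := by rw [map_add]; ring
      rw [this]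
      exact Submodule.add_mem _ hx' hy'
    · rintro c a _ ⟨x, hx, hx'⟩
      refine ⟨C (constantCoeff c) * x, Ideal.mul_mem_left _ _ hx, ?_⟩
      have hC : φ (C (constantCoeff c)) = C (constantCoeff c) := by
        have := φ.commutes (constantCoeff c)
        rwa [MvPowerSeries.algebraMap_apply, Algebra.algebraMap_self, RingHom.id_apply] at this
      have : c • a - φ (C (constantCoeff c) * x) =
          c * (a - φ x) + (c - C (constantCoeff c)) * φ x := by
        rw [map_mul, hC, smul_eq_mul]; ring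
      rw [this]
      refine Submodule.add_mem _ (Ideal.mul_mem_left _ _ hx') ?_
      rw [pow_succ']
      refine Ideal.mul_mem_mul ?_ (hmem n x hx)
      rw [h𝔪, Pool.Agent.H707.FT867.mem_max, map_sub, constantCoeff_C, sub_self]
  intro f
  -- the sequence of approximations
  have hseq : ∃ g : ℕ → MvPowerSeries (Fin D) k, ∀ n, f - φ (g n) ∈ 𝔪 ^ n ∧
      g (n + 1) - g n ∈ 𝔪 ^ n := by
    choose s hs hs' using step
    let F : (n : ℕ) → {g : MvPowerSeries (Fin D) k // f - φ g ∈ 𝔪 ^ n} := fun n =>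
      Nat.rec ⟨0, by rw [pow_zero, Ideal.one_eq_top]; exact Submodule.mem_top⟩
        (fun n g => ⟨g.1 + s n (f - φ g.1) g.2, by
          have : f - φ (g.1 + s n (f - φ g.1) g.2) = (f - φ g.1) - φ (s n (f - φ g.1) g.2) := by
            rw [map_add]; ring
          rw [this]
          exact hs' n (f - φ g.1) g.2⟩) n
    refine ⟨fun n => (F n).1, fun n => ⟨(F n).2, ?_⟩⟩
    have h1 : (F (n + 1)).1 = (F n).1 + s n (f - φ (F n).1) (F n).2 := rfl
    show (F (n + 1)).1 - (F n).1 ∈ 𝔪 ^ n
    rw [h1, add_sub_cancel_left]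
    exact hs n _ _
  obtain ⟨g, hg⟩ := hseq
  have hcau : ∀ {m n : ℕ}, m ≤ n → g m ≡ g n [SMOD (𝔪 ^ m • ⊤ : Ideal (MvPowerSeries (Fin D) k))] := by
    intro m n hmn
    rw [SModEq.sub_mem, smul_eq_mul, Ideal.mul_top]
    induction n, hmn using Nat.le_induction with
    | base => rw [sub_self]; exact Submodule.zero_mem _
    | succ n hmn ih =>
      have : g m - g (n + 1) = (g m - g n) - (g (n + 1) - g n) := by ring
      rw [this]
      exact Submodule.sub_mem _ ih (Ideal.pow_le_pow_right hmn (hg n).2)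
  obtain ⟨L, hL⟩ := hac.toIsPrecomplete.prec hcau
  refine ⟨L, ?_⟩
  rw [← sub_eq_zero]
  refine hac.toIsHausdorff.haus _ fun n => ?_
  rw [SModEq.zero, smul_eq_mul, Ideal.mul_top]
  have h1 := hL n
  rw [SModEq.sub_mem, smul_eq_mul, Ideal.mul_top] at h1
  have h2 : φ L - f = -(f - φ (g n)) - φ (g n - L) := by rw [map_sub]; ring
  rw [h2]
  exact Submodule.sub_mem _ (Submodule.neg_mem _ (hg n).1) (hmem n _ h1)

/-- The automorphism with `X i₀ ↦ y`. -/
theorem exists_aut (y : MvPowerSeries (Fin D) k) (hy : y ∈ maximalIdeal (MvPowerSeries (Fin D) k))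
    (i₀ : Fin D) (hi : coeff (Finsupp.single i₀ 1) y ≠ 0) :
    ∃ ψ : MvPowerSeries (Fin D) k ≃+* MvPowerSeries (Fin D) k, ψ (X i₀) = y ∧
      ∀ i, i ≠ i₀ → ψ (X i) = X i := by
  classical
  set 𝔪 := maximalIdeal (MvPowerSeries (Fin D) k) with h𝔪
  let a : Fin D → MvPowerSeries (Fin D) k := fun i => if i = i₀ then y else X i
  have ha0 : a i₀ = y := if_pos rfl
  have ha1 : ∀ i, i ≠ i₀ → a i = X i := fun i hi => if_neg hi
  have ham : ∀ i, a i ∈ 𝔪 := fun i => by
    by_cases h : i = i₀
    · rw [h, ha0]; exact hy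
    · rw [ha1 i h]; exact Pool.Agent.H707.FT867.X_mem i
  have has : HasSubst a := hasSubst_of_constantCoeff_zero fun i =>
    Pool.Agent.H707.FT867.mem_max.1 (ham i)
  let φ : MvPowerSeries (Fin D) k →ₐ[k] MvPowerSeries (Fin D) k := substAlgHom has
  have hφX : ∀ i, φ (X i) = a i := fun i => substAlgHom_X has i
  -- `a` generates `𝔪`
  have hXmem : ∀ i, (X i : MvPowerSeries (Fin D) k) ∈ Ideal.span (Set.range a) ⊔ 𝔪 • 𝔪 := by
    intro i
    by_cases h : i = i₀
    · subst h
      set c := coeff (Finsupp.single i 1) y with hc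
      have hsum : y - ∑ j, C (coeff (Finsupp.single j 1) y) * X j ∈ 𝔪 ^ 2 := by
        refine mem_sq ?_ fun j => ?_
        · rw [map_sub, map_sum, Pool.Agent.H707.FT867.mem_max.1 hy, zero_sub, neg_eq_zero]
          refine Finset.sum_eq_zero fun j _ => ?_
          rw [map_mul, constantCoeff_X, mul_zero]
        · rw [map_sub, map_sum, sub_eq_zero]
          rw [Finset.sum_eq_single j]
          · rw [coeff_C_mul, coeff_X, if_pos rfl, mul_one]
          · intro l _ hl
            rw [coeff_C_mul, coeff_X, if_neg, mul_zero]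
            intro h
            have := (Finsupp.single_left_inj (one_ne_zero)).1 h
            exact hl this.symm
          · intro h; exact absurd (Finset.mem_univ j) h
      have hXi : (X i : MvPowerSeries (Fin D) k) = C c⁻¹ * y -
          ∑ j ∈ Finset.univ.erase i, C (c⁻¹ * coeff (Finsupp.single j 1) y) * X j -
          C c⁻¹ * (y - ∑ j, C (coeff (Finsupp.single j 1) y) * X j) := by
        rw [← Finset.add_sum_erase Finset.univ _ (Finset.mem_univ i), mul_sub, mul_add,
          Finset.mul_sum]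
        have h1 : C c⁻¹ * (C (coeff (Finsupp.single i 1) y) * X i) =
            (X i : MvPowerSeries (Fin D) k) := by
          rw [← mul_assoc, ← map_mul, ← hc, inv_mul_cancel₀ hi, map_one, one_mul]
        have h2 : ∑ j ∈ Finset.univ.erase i, C (c⁻¹ * coeff (Finsupp.single j 1) y) *
            (X j : MvPowerSeries (Fin D) k) =
            ∑ j ∈ Finset.univ.erase i, C c⁻¹ * (C (coeff (Finsupp.single j 1) y) * X j) :=
          Finset.sum_congr rfl fun j _ => by rw [map_mul, mul_assoc]
        rw [h1, h2]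
        ring
      rw [hXi]
      refine Submodule.sub_mem _ (Submodule.sub_mem _ ?_ ?_) ?_
      · refine Ideal.mem_sup_left (Ideal.mul_mem_left _ _ (Ideal.subset_span ⟨i, ha0⟩))
      · refine Ideal.mem_sup_left (Submodule.sum_mem _ fun j hj => ?_)
        exact Ideal.mul_mem_left _ _ (Ideal.subset_span ⟨j, ha1 j (Finset.ne_of_mem_erase hj)⟩)
      · refine Ideal.mem_sup_right ?_
        rw [smul_eq_mul, ← pow_two]
        exact Ideal.mul_mem_left _ _ hsum
    · exact Ideal.mem_sup_left (Ideal.subset_span ⟨i, ha1 i h⟩)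
  have hgen : Ideal.span (Set.range a) = 𝔪 := by
    refine le_antisymm ?_ ?_
    · rw [Ideal.span_le]
      rintro _ ⟨i, rfl⟩
      exact ham i
    · refine Submodule.le_of_le_smul_of_le_jacobson_bot (I := 𝔪) ?_ ?_ ?_
      · exact IsNoetherian.noetherian 𝔪
      · rw [IsLocalRing.jacobson_eq_maximalIdeal ⊥ bot_ne_top]
      · conv_lhs => rw [h𝔪, max_eq]
        rw [Ideal.span_le]
        rintro _ ⟨i, rfl⟩
        exact hXmem i
  have hmap : Ideal.map (φ : MvPowerSeries (Fin D) k →+* MvPowerSeries (Fin D) k) 𝔪 = 𝔪 := by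
    conv_lhs => rw [h𝔪, max_eq, Ideal.map_span, ← Set.range_comp]
    rw [← hgen]
    congr 2
    funext i
    exact hφX i
  have hsurj := surj φ hmap
  have hinj := inj_of_surj (φ : MvPowerSeries (Fin D) k →+* MvPowerSeries (Fin D) k) hsurj
  refine ⟨RingEquiv.ofBijective (φ : MvPowerSeries (Fin D) k →+* MvPowerSeries (Fin D) k)
    ⟨hinj, hsurj⟩, ?_, fun i hi => ?_⟩
  · exact (hφX i₀).trans ha0
  · exact (hφX i).trans (ha1 i hi)

/-- The series that vanish when the variables of `T` are put to zero. -/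
theorem ker_kill (T : Set (Fin D)) (f : MvPowerSeries (Fin D) k) :
    killCompl (R := k) (Function.Embedding.subtype fun i => i ∉ T) f = 0 ↔
      ∀ m : Fin D →₀ ℕ, (∀ i ∈ T, m i = 0) → coeff m f = 0 := by
  classical
  constructor
  · intro h m hm
    have h1 : m = Finsupp.embDomain (Function.Embedding.subtype fun i => i ∉ T)
        (m.comapDomain (Function.Embedding.subtype fun i => i ∉ T)
          (Function.Embedding.injective _).injOn) := by
      refine (Finsupp.embDomain_comapDomain ?_).symm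
      intro i hi
      rw [Finset.mem_coe, Finsupp.mem_support_iff] at hi
      exact ⟨⟨i, fun hT => hi (hm i hT)⟩, rfl⟩
    rw [h1, ← coeff_killCompl, h, map_zero]
  · intro h
    ext m
    rw [coeff_killCompl, map_zero]
    refine h _ fun i hi => ?_
    rw [Finsupp.embDomain_of_notMem_range]
    rintro ⟨⟨j, hj⟩, rfl⟩
    exact hj hi

/-- The homomorphism that puts the variables of `T` to zero. -/
noncomputable def kil (T : Set (Fin D)) :
    MvPowerSeries (Fin D) k →+* MvPowerSeries {i // i ∉ T} k :=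
  (killCompl (R := k) (Function.Embedding.subtype fun i => i ∉ T)).toRingHom

theorem prime_ker (T : Set (Fin D)) : (RingHom.ker (kil (k := k) T)).IsPrime := by
  have : IsDomain (MvPowerSeries {i // i ∉ T} k) := NoZeroDivisors.to_isDomain _
  exact RingHom.ker_isPrime _

theorem prime_one (i₀ : Fin D) : (Ideal.span {(X i₀ : MvPowerSeries (Fin D) k)}).IsPrime := by
  have h : Ideal.span {(X i₀ : MvPowerSeries (Fin D) k)} =
      RingHom.ker (kil (k := k) ({i₀} : Set (Fin D))) := by
    ext f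
    rw [Ideal.mem_span_singleton, X_dvd_iff, RingHom.mem_ker]
    exact ((ker_kill {i₀} f).trans (by simp)).symm
  rw [h]
  exact prime_ker _

theorem prime_two (i₀ i₁ : Fin D) :
    (Ideal.span {(X i₀ : MvPowerSeries (Fin D) k), X i₁}).IsPrime := by
  classical
  have h : Ideal.span {(X i₀ : MvPowerSeries (Fin D) k), X i₁} =
      RingHom.ker (kil (k := k) ({i₀, i₁} : Set (Fin D))) := by
    ext f
    have hk : f ∈ RingHom.ker (kil (k := k) ({i₀, i₁} : Set (Fin D))) ↔
        ∀ m : Fin D →₀ ℕ, m i₀ = 0 → m i₁ = 0 → coeff m f = 0 := by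
      rw [RingHom.mem_ker]
      exact (ker_kill {i₀, i₁} f).trans (by simp)
    rw [hk]
    constructor
    · intro hf m h0 h1
      obtain ⟨a, b, hab⟩ := Ideal.mem_span_pair.1 hf
      rw [← hab, map_add]
      have e0 : coeff m (a * X i₀) = 0 := X_dvd_iff.1 (Dvd.intro_left a rfl) m h0
      have e1 : coeff m (b * X i₁) = 0 := X_dvd_iff.1 (Dvd.intro_left b rfl) m h1
      rw [e0, e1, add_zero]
    · intro hf
      let g : MvPowerSeries (Fin D) k := fun m => if m i₀ = 0 then 0 else coeff m f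
      have hg : ∀ m, coeff m g = if m i₀ = 0 then 0 else coeff m f := fun _ => rfl
      have h1 : X i₀ ∣ g := X_dvd_iff.2 fun m hm => by rw [hg, if_pos hm]
      have h2 : X i₁ ∣ f - g := X_dvd_iff.2 fun m hm => by
        rw [map_sub, hg]
        by_cases h : m i₀ = 0
        · rw [if_pos h, sub_zero, hf m h hm]
        · rw [if_neg h, sub_self]
      obtain ⟨a, ha⟩ := h1
      obtain ⟨b, hb⟩ := h2
      refine Ideal.mem_span_pair.2 ⟨a, b, ?_⟩
      rw [mul_comm a, mul_comm b, ← ha, ← hb]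
      ring
  rw [h]
  exact prime_ker _

theorem equiv_mem (ψ : MvPowerSeries (Fin D) k ≃+* MvPowerSeries (Fin D) k)
    (x : MvPowerSeries (Fin D) k) :
    ψ x ∈ maximalIdeal (MvPowerSeries (Fin D) k) ↔ x ∈ maximalIdeal (MvPowerSeries (Fin D) k) := by
  rw [mem_maximalIdeal, mem_maximalIdeal, mem_nonunits_iff, mem_nonunits_iff]
  exact not_congr (MulEquiv.isUnit_map ψ)

theorem equiv_map (ψ : MvPowerSeries (Fin D) k ≃+* MvPowerSeries (Fin D) k) :
    Ideal.map (ψ : MvPowerSeries (Fin D) k →+* MvPowerSeries (Fin D) k)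
      (maximalIdeal (MvPowerSeries (Fin D) k)) = maximalIdeal (MvPowerSeries (Fin D) k) := by
  refine le_antisymm ?_ ?_
  · rw [Ideal.map_le_iff_le_comap]
    intro x hx
    exact (equiv_mem ψ x).2 hx
  · intro x hx
    have h1 : ψ.symm x ∈ maximalIdeal (MvPowerSeries (Fin D) k) := (equiv_mem ψ.symm x).2 hx
    have h2 := Ideal.mem_map_of_mem (ψ : MvPowerSeries (Fin D) k →+* MvPowerSeries (Fin D) k) h1
    have h3 : (ψ : MvPowerSeries (Fin D) k →+* MvPowerSeries (Fin D) k) (ψ.symm x) = x :=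
      ψ.apply_symm_apply x
    rwa [h3] at h2

theorem equiv_mem_sq (ψ : MvPowerSeries (Fin D) k ≃+* MvPowerSeries (Fin D) k)
    (x : MvPowerSeries (Fin D) k) (hx : x ∈ maximalIdeal (MvPowerSeries (Fin D) k) ^ 2) :
    ψ x ∈ maximalIdeal (MvPowerSeries (Fin D) k) ^ 2 := by
  rw [← equiv_map ψ, ← Ideal.map_pow]
  exact Ideal.mem_map_of_mem (ψ : MvPowerSeries (Fin D) k →+* MvPowerSeries (Fin D) k) hx

theorem one_notMem : (1 : MvPowerSeries (Fin D) k) ∉ maximalIdeal (MvPowerSeries (Fin D) k) :=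
  fun h => (Ideal.ne_top_iff_one _).1 (maximalIdeal.isMaximal _).ne_top h

theorem rgs : Pool.Agent.H867.FT.S_RGS := by
  classical
  intro k _ D y z hy hz hyz
  -- the first variable
  obtain ⟨i₀, hi₀⟩ : ∃ i₀, coeff (Finsupp.single i₀ 1) y ≠ 0 := by
    by_contra hcon
    push Not at hcon
    have h1 := mem_sq (Pool.Agent.H707.FT867.mem_max.1 hy) hcon
    have h2 := hyz 1 0 (by rw [one_mul, zero_mul, add_zero]; exact h1)
    exact one_notMem h2.1
  obtain ⟨ψ, hψ0, -⟩ := exists_aut y hy i₀ hi₀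
  set w := ψ.symm z with hw
  have hψw : ψ w = z := ψ.apply_symm_apply z
  have hwm : w ∈ maximalIdeal (MvPowerSeries (Fin D) k) := by
    rw [← equiv_mem ψ, hψw]
    exact hz
  -- the second variable
  obtain ⟨i₁, hi₁, hi₁'⟩ : ∃ i₁, i₁ ≠ i₀ ∧ coeff (Finsupp.single i₁ 1) w ≠ 0 := by
    by_contra hcon
    push Not at hcon
    set c := coeff (Finsupp.single i₀ 1) w with hc
    have h1 : -C c * X i₀ + 1 * w ∈ maximalIdeal (MvPowerSeries (Fin D) k) ^ 2 := by
      refine mem_sq ?_ fun i => ?_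
      · rw [map_add, map_mul, constantCoeff_X, mul_zero, zero_add, one_mul]
        exact Pool.Agent.H707.FT867.mem_max.1 hwm
      · rw [map_add, neg_mul, map_neg, coeff_C_mul, one_mul, coeff_X]
        by_cases h : i = i₀
        · rw [h, if_pos rfl, mul_one, ← hc]
          ring
        · rw [hcon i h, if_neg, mul_zero, neg_zero, add_zero]
          intro h'
          exact h ((Finsupp.single_left_inj one_ne_zero).1 h')
    have h2 := equiv_mem_sq ψ _ h1
    rw [map_add, map_mul, map_mul, hψ0, hψw, map_one] at h2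
    exact one_notMem (hyz _ _ h2).2
  obtain ⟨ψ', hψ'1, hψ'⟩ := exists_aut w hwm i₁ hi₁'
  have hψ'0 : ψ' (X i₀) = X i₀ := hψ' i₀ hi₁.symm
  constructor
  · have h1 : Ideal.span {y} = Ideal.map ψ (Ideal.span {(X i₀ : MvPowerSeries (Fin D) k)}) := by
      rw [Ideal.map_span, Set.image_singleton, hψ0]
    rw [h1]
    have := prime_one (k := k) i₀
    exact Ideal.map_isPrime_of_equiv ψ
  · have h1 : Ideal.span {y, z} =
        Ideal.map (ψ'.trans ψ) (Ideal.span {(X i₀ : MvPowerSeries (Fin D) k), X i₁}) := by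
      rw [Ideal.map_span, Set.image_pair, RingEquiv.trans_apply, RingEquiv.trans_apply, hψ'0,
        hψ0, hψ'1, hψw]
    rw [h1]
    have := prime_two (k := k) i₀ i₁
    exact Ideal.map_isPrime_of_equiv (ψ'.trans ψ)

end Pool.Agent.H261.FT867RGS
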