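import Pool.Agent.H261.OC.Pts
import Pool.Agent.H465.OC.StmB

set_option autoImplicit false

/-! # Project OC (helper465): finite computation for `p = 7`, by helper261 (generated) -/

namespace Pool.Agent.H261.OC7

open Pool.Agent.H261.OC Pool.Agent.Q279.SC

def lA : List ℕ := [0, 1, 9, 28, 24, 28, 7, 1, 46, 22, 7, 9, 35, 42, 9, 0, 26, 14, 2, 0, 35, 28, 32, 16, 14, 22, 35, 7, 24, 37, 0, 0, 13, 7, 28, 28, 38, 37, 0, 0, 14, 28, 7, 30, 20, 28, 46, 42, 42, 1]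
def lB : List ℕ := [0, 1, 33, 48, 28, 39, 16, 1, 15, 3, 13, 38, 21, 21, 33, 10, 40, 34, 1, 32, 14, 48, 29, 47, 34, 13, 7, 44, 28, 44, 36, 20, 7, 11, 44, 39, 35, 40, 27, 28, 46, 14, 16, 16, 35, 19, 32, 18, 9, 1]
def lQ : List ℕ := [0, 1, 23, 7, 10, 14, 0, 1, 32, 15, 35, 30, 35, 42, 23, 14, 26, 42, 30, 35, 35, 7, 18, 30, 42, 29, 35, 0, 10, 37, 21, 28, 34, 42, 21, 14, 24, 2, 28, 0, 0, 28, 0, 30, 41, 35, 46, 28, 35, 1]
def lA2 : List ℕ := [0, 0, 1, 18, 39, 13, 47, 0, 18, 33, 39, 45, 14, 7, 1, 38, 47, 32, 16, 41, 14, 18, 32, 43, 32, 23, 14, 47, 39, 14, 2, 46, 15, 34, 26, 13, 25, 22, 46, 0, 27, 21, 47, 21, 8, 15, 26, 48, 12, 0]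
def lA3 : List ℕ := [0, 0, 0, 1, 27, 33, 10, 1, 29, 23, 15, 0, 28, 35, 25, 27, 12, 43, 40, 40, 21, 8, 36, 21, 43, 8, 28, 10, 25, 42, 32, 36, 5, 26, 3, 12, 15, 0, 36, 0, 12, 7, 38, 35, 45, 37, 47, 5, 31, 15]
def lB2 : List ℕ := [0, 0, 1, 17, 9, 39, 16, 2, 0, 43, 30, 28, 44, 23, 2, 23, 34, 18, 20, 29, 13, 31, 34, 7, 39, 39, 10, 42, 5, 25, 7, 40, 18, 41, 14, 46, 16, 25, 22, 19, 14, 34, 23, 48, 47, 1, 24, 23, 41, 30]
def lE4 : List ℕ := [1, 44, 4, 7, 27, 7, 14, 44, 15, 37, 14, 4, 21, 35, 4, 0, 17, 28, 39, 0, 21, 7, 36, 18, 28, 37, 21, 14, 27, 11, 0, 0, 33, 14, 7, 7, 6, 11, 0, 0, 28, 7, 14, 46, 47, 7, 15, 35, 35, 44]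
def lE42 : List ℕ := [1, 39, 33, 23, 0, 45, 27, 39, 39, 17, 23, 6, 0, 0, 33, 19, 33, 23, 37, 45, 0, 23, 39, 33, 23, 12, 0, 27, 0, 29, 1, 23, 0, 45, 27, 45, 0, 33, 23, 0, 45, 0, 27, 29, 0, 46, 43, 45, 27, 39]
def lE43 : List ℕ := [1, 34, 38, 21, 23, 7, 14, 7, 24, 5, 14, 6, 14, 28, 0, 14, 18, 0, 41, 35, 7, 28, 17, 17, 0, 3, 14, 14, 28, 47, 21, 28, 11, 28, 28, 35, 18, 17, 28, 0, 21, 35, 42, 33, 16, 0, 40, 42, 21, 21]
def lD : List ℕ := [0, 1, 25, 7, 47, 28, 28, 14, 4, 37, 14, 22, 35, 21, 7, 0, 31, 28, 43, 0, 42, 0, 11, 46, 28, 32, 35, 28, 21, 23, 0, 0, 31, 7, 14, 0, 24, 46, 0, 0, 14, 14, 0, 37, 5, 7, 23, 42, 21, 0]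
def ld : List ℕ := [1, 25, 7, 47, 28, 28, 14, 4, 37, 14, 22, 35, 21, 7, 0, 31, 28, 43, 0, 42, 0, 11, 46, 28, 32, 35, 28, 21, 23, 0, 0, 31, 7, 14, 0, 24, 46, 0, 0, 14, 14, 0, 37, 5, 7, 23, 42, 21, 0]
def lH : List ℕ := [1, 20, 33, 21, 23, 23, 7, 43, 19, 19, 41, 7, 14, 42, 24, 6, 47, 37, 37, 42, 35, 36, 41, 47, 47, 35, 9, 0, 30, 39, 12, 42, 30, 9, 14, 7, 6, 5, 21, 9, 42, 14, 44, 28, 45, 36, 16, 2, 0]

def data : Data 49 50 0 where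
  A := lA
  B := lB
  Q := lQ
  A2 := lA2
  A3 := lA3
  B2 := lB2
  E4 := lE4
  E42 := lE42
  E43 := lE43
  D := lD
  d := ld
  H := lH
  hc := by decide +kernel
  hA := by decide +kernel
  hB := by decide +kernel
  hQ := by decide +kernel
  hA2 := by decide +kernel
  hA3 := by decide +kernel
  hB2 := by decide +kernel
  hE4 := by decide +kernel
  hE42 := by decide +kernel
  hE43 := by decide +kernel
  hD := by decide +kernel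
  hd := by decide +kernel
  hH := by decide +kernel

def lG1 : List ℕ := [1, 33, 13, 14, 25, 28, 35, 42, 20, 17, 0, 33, 28, 7, 42, 14, 36, 21, 47, 35, 14, 28, 6, 20, 21, 20, 28, 35, 7, 24, 21, 28, 29, 21, 14, 35, 43, 20, 28, 0, 7, 21, 42, 45, 11, 42, 17, 0, 0]
def lF1 : List ℕ := [1, 36, 8, 10, 40, 32, 37, 39, 3, 11, 21, 25, 22, 23, 46, 43, 40, 45, 1, 17, 2, 46, 27, 20, 31, 36, 48, 13, 29, 43, 11, 42, 24, 12, 3, 16, 41, 11, 0, 17, 40, 36, 36, 21, 1, 40, 36, 40, 11]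
theorem phi1 (Φ : PowerSeries ℤ) (h : Φ * (q4 ℤ ^ 3 - PowerSeries.C ((1 : ℕ) : ℤ) * qD ℤ) = q4 ℤ * qd ℤ) :
    ((PowerSeries.coeff 6 Φ : ℤ) : ZMod 49) = 37 ∧ ((PowerSeries.coeff 48 Φ : ℤ) : ZMod 49) = 11 := by
  have h1 := data.phi 1 (by norm_num) lG1 lF1 (by decide +kernel) (by decide +kernel) (by decide +kernel) Φ h
  have h2 := h1 6 (by norm_num)
  have h3 := h1 48 (by norm_num)
  rw [PowerSeries.coeff_map] at h2 h3
  have e2 : lF1.getD 6 0 = 37 := by decide +kernel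
  have e3 : lF1.getD 48 0 = 11 := by decide +kernel
  rw [e2] at h2
  rw [e3] at h3
  exact ⟨h2, h3⟩

def lG2 : List ℕ := [1, 32, 37, 7, 27, 0, 7, 28, 16, 29, 35, 11, 42, 35, 35, 14, 5, 42, 4, 35, 21, 28, 44, 23, 42, 37, 42, 7, 35, 1, 21, 28, 47, 14, 0, 35, 19, 23, 28, 0, 42, 7, 42, 8, 6, 35, 43, 7, 28]
def lF2 : List ℕ := [1, 37, 37, 9, 40, 43, 2, 28, 32, 13, 26, 42, 44, 25, 24, 6, 2, 8, 9, 6, 25, 36, 17, 13, 1, 27, 38, 18, 7, 37, 39, 35, 1, 46, 31, 2, 47, 30, 14, 43, 33, 37, 25, 9, 7, 41, 29, 17, 4]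
theorem phi2 (Φ : PowerSeries ℤ) (h : Φ * (q4 ℤ ^ 3 - PowerSeries.C ((2 : ℕ) : ℤ) * qD ℤ) = q4 ℤ * qd ℤ) :
    ((PowerSeries.coeff 6 Φ : ℤ) : ZMod 49) = 2 ∧ ((PowerSeries.coeff 48 Φ : ℤ) : ZMod 49) = 4 := by
  have h1 := data.phi 2 (by norm_num) lG2 lF2 (by decide +kernel) (by decide +kernel) (by decide +kernel) Φ h
  have h2 := h1 6 (by norm_num)
  have h3 := h1 48 (by norm_num)
  rw [PowerSeries.coeff_map] at h2 h3
  have e2 : lF2.getD 6 0 = 2 := by decide +kernel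
  have e3 : lF2.getD 48 0 = 4 := by decide +kernel
  rw [e2] at h2
  rw [e3] at h3
  exact ⟨h2, h3⟩

def lG3 : List ℕ := [1, 31, 12, 0, 29, 21, 28, 14, 12, 41, 21, 38, 7, 14, 28, 14, 23, 14, 10, 35, 28, 28, 33, 26, 14, 5, 7, 28, 14, 27, 21, 28, 16, 7, 35, 35, 44, 26, 28, 0, 28, 42, 42, 20, 1, 28, 20, 14, 7]
def lF3 : List ℕ := [1, 38, 19, 5, 3, 21, 1, 0, 13, 1, 20, 38, 20, 10, 22, 5, 31, 41, 3, 8, 5, 10, 26, 17, 25, 23, 9, 5, 39, 45, 42, 27, 11, 48, 17, 47, 1, 6, 10, 32, 5, 21, 35, 1, 34, 38, 26, 36, 36]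
theorem phi3 (Φ : PowerSeries ℤ) (h : Φ * (q4 ℤ ^ 3 - PowerSeries.C ((3 : ℕ) : ℤ) * qD ℤ) = q4 ℤ * qd ℤ) :
    ((PowerSeries.coeff 6 Φ : ℤ) : ZMod 49) = 1 ∧ ((PowerSeries.coeff 48 Φ : ℤ) : ZMod 49) = 36 := by
  have h1 := data.phi 3 (by norm_num) lG3 lF3 (by decide +kernel) (by decide +kernel) (by decide +kernel) Φ h
  have h2 := h1 6 (by norm_num)
  have h3 := h1 48 (by norm_num)
  rw [PowerSeries.coeff_map] at h2 h3
  have e2 : lF3.getD 6 0 = 1 := by decide +kernel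
  have e3 : lF3.getD 48 0 = 36 := by decide +kernel
  rw [e2] at h2
  rw [e3] at h3
  exact ⟨h2, h3⟩

def lG4 : List ℕ := [1, 30, 36, 42, 31, 42, 0, 0, 8, 4, 7, 16, 21, 42, 21, 14, 41, 35, 16, 35, 35, 28, 22, 29, 35, 22, 21, 0, 42, 4, 21, 28, 34, 0, 21, 35, 20, 29, 28, 0, 14, 28, 42, 32, 45, 21, 46, 21, 35]
def lF4 : List ℕ := [1, 39, 3, 4, 37, 38, 46, 48, 31, 25, 6, 46, 28, 2, 34, 10, 24, 44, 14, 21, 19, 1, 25, 27, 27, 14, 2, 16, 37, 32, 8, 2, 24, 20, 1, 38, 29, 1, 16, 17, 25, 26, 47, 14, 18, 42, 3, 30, 30]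
theorem phi4 (Φ : PowerSeries ℤ) (h : Φ * (q4 ℤ ^ 3 - PowerSeries.C ((4 : ℕ) : ℤ) * qD ℤ) = q4 ℤ * qd ℤ) :
    ((PowerSeries.coeff 6 Φ : ℤ) : ZMod 49) = 46 ∧ ((PowerSeries.coeff 48 Φ : ℤ) : ZMod 49) = 30 := by
  have h1 := data.phi 4 (by norm_num) lG4 lF4 (by decide +kernel) (by decide +kernel) (by decide +kernel) Φ h
  have h2 := h1 6 (by norm_num)
  have h3 := h1 48 (by norm_num)
  rw [PowerSeries.coeff_map] at h2 h3
  have e2 : lF4.getD 6 0 = 46 := by decide +kernel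
  have e3 : lF4.getD 48 0 = 30 := by decide +kernel
  rw [e2] at h2
  rw [e3] at h3
  exact ⟨h2, h3⟩

def lG5 : List ℕ := [1, 29, 11, 35, 33, 14, 21, 35, 4, 16, 42, 43, 35, 21, 14, 14, 10, 7, 22, 35, 42, 28, 11, 32, 7, 39, 35, 21, 21, 30, 21, 28, 3, 42, 7, 35, 45, 32, 28, 0, 0, 14, 42, 44, 40, 14, 23, 28, 14]
def lF5 : List ℕ := [1, 40, 38, 12, 29, 12, 25, 43, 42, 38, 45, 23, 44, 27, 20, 9, 22, 23, 42, 32, 26, 45, 33, 47, 45, 40, 13, 34, 9, 11, 40, 43, 36, 41, 39, 43, 13, 6, 23, 12, 23, 34, 13, 41, 10, 46, 21, 37, 44]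
theorem phi5 (Φ : PowerSeries ℤ) (h : Φ * (q4 ℤ ^ 3 - PowerSeries.C ((5 : ℕ) : ℤ) * qD ℤ) = q4 ℤ * qd ℤ) :
    ((PowerSeries.coeff 6 Φ : ℤ) : ZMod 49) = 25 ∧ ((PowerSeries.coeff 48 Φ : ℤ) : ZMod 49) = 44 := by
  have h1 := data.phi 5 (by norm_num) lG5 lF5 (by decide +kernel) (by decide +kernel) (by decide +kernel) Φ h
  have h2 := h1 6 (by norm_num)
  have h3 := h1 48 (by norm_num)
  rw [PowerSeries.coeff_map] at h2 h3
  have e2 : lF5.getD 6 0 = 25 := by decide +kernel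
  have e3 : lF5.getD 48 0 = 44 := by decide +kernel
  rw [e2] at h2
  rw [e3] at h3
  exact ⟨h2, h3⟩

/-- the value of `a_p ^ 2` -/
def Tv : ℕ → ℤ
  | 1 => 9
  | 2 => 16
  | 3 => 1
  | 4 => 4
  | 5 => 4
  | _ => 0

instance : Fact (Nat.Prime 7) := ⟨by norm_num⟩

theorem classes : ∀ a b : ZMod 7, a ≠ 0 → b ≠ 0 → a ^ 3 - b ^ 2 ≠ 0 → ∀ n < 7,
    ((n : ℕ) : ZMod 7) * (a ^ 3 - b ^ 2) = 1728 * a ^ 3 → (7 : ℤ) ∣ (7 : ℤ) - cnt 7 a b ∨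
      ((n = 1 ∨ n = 2 ∨ n = 3 ∨ n = 4 ∨ n = 5) ∧ ((7 : ℤ) - cnt 7 a b) ^ 2 = Tv n) := by
  decide +kernel

theorem main : Pool.Agent.H465.OC.Small 7 := by
  intro W hΔ hc4 hc6 hap n hn0 hnp hdiv Φ hΦ t ht htp hcong
  have h1 := ap_eq 7 (by norm_num) W hΔ
  have ha : ((W.c₄ : ℤ) : ZMod 7) ≠ 0 := fun h => hc4 ((ZMod.intCast_zmod_eq_zero_iff_dvd _ _).1 h)
  have hb : ((W.c₆ : ℤ) : ZMod 7) ≠ 0 := fun h => hc6 ((ZMod.intCast_zmod_eq_zero_iff_dvd _ _).1 h)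
  have hD : ((W.Δ : ℤ) : ZMod 7) ≠ 0 := fun h => hΔ ((ZMod.intCast_zmod_eq_zero_iff_dvd _ _).1 h)
  have hr := congrArg (fun z : ℤ => (z : ZMod 7)) W.c_relation
  push_cast at hr
  have hn : ((n : ℤ) : ZMod 7) * ((W.Δ : ℤ) : ZMod 7) - ((W.c₄ : ℤ) : ZMod 7) ^ 3 = 0 := by
    have h := (ZMod.intCast_zmod_eq_zero_iff_dvd _ _).2 hdiv
    push_cast at h
    push_cast
    exact h
  have h1728 : (1728 : ZMod 7) ≠ 0 := by decide +kernel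
  have hne : ((W.c₄ : ℤ) : ZMod 7) ^ 3 - ((W.c₆ : ℤ) : ZMod 7) ^ 2 ≠ 0 := by
    rw [← hr]; exact mul_ne_zero h1728 hD
  have hcls : ((n : ℕ) : ZMod 7) * (((W.c₄ : ℤ) : ZMod 7) ^ 3 - ((W.c₆ : ℤ) : ZMod 7) ^ 2) =
      1728 * ((W.c₄ : ℤ) : ZMod 7) ^ 3 := by
    rw [← hr]
    rw [Int.cast_natCast] at hn
    linear_combination 1728 * hn
  have hcong2 : ((49 : ℕ) : ℤ) ∣ (t ^ 2 - 14) * PowerSeries.coeff 6 Φ - PowerSeries.coeff 48 Φ := by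
    have h := hcong
    rw [show ((7 : ℕ) : ℤ) ^ 2 = ((49 : ℕ) : ℤ) by norm_num, show 2 * ((7 : ℕ) : ℤ) = 14 by norm_num] at h
    exact h
  have hk := (ZMod.intCast_zmod_eq_zero_iff_dvd _ _).2 hcong2
  rw [Int.cast_sub, Int.cast_mul] at hk
  have ht1 : -5 ≤ t := by push_cast at ht; nlinarith
  have ht2 : t ≤ 5 := by push_cast at ht; nlinarith
  rcases classes _ _ ha hb hne n hnp hcls with h | ⟨hcase, hsq⟩
  · exact absurd (by rw [h1]; exact h) hap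
  · have hgoal : t ^ 2 = Tv n := by
      rcases hcase with hcase | hcase | hcase | hcase | hcase
      · subst hcase
        obtain ⟨e1, e2⟩ := phi1 Φ hΦ
        rw [e1, e2] at hk
        interval_cases t
        all_goals first
          | rfl
          | exact absurd hk (by decide +kernel)
      · subst hcase
        obtain ⟨e1, e2⟩ := phi2 Φ hΦ
        rw [e1, e2] at hk
        interval_cases t
        all_goals first
          | rfl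
          | exact absurd hk (by decide +kernel)
      · subst hcase
        obtain ⟨e1, e2⟩ := phi3 Φ hΦ
        rw [e1, e2] at hk
        interval_cases t
        all_goals first
          | rfl
          | exact absurd hk (by decide +kernel)
      · subst hcase
        obtain ⟨e1, e2⟩ := phi4 Φ hΦ
        rw [e1, e2] at hk
        interval_cases t
        all_goals first
          | rfl
          | exact absurd hk (by decide +kernel)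
      · subst hcase
        obtain ⟨e1, e2⟩ := phi5 Φ hΦ
        rw [e1, e2] at hk
        interval_cases t
        all_goals first
          | rfl
          | exact absurd hk (by decide +kernel)
    rw [h1, hgoal]
    exact hsq.symm

end Pool.Agent.H261.OC7
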