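import Mathlib
import Pool.Agent.H576.RD.Stm

/-!
# Bottleneck length and lens partners
-/

set_option autoImplicit false

namespace Pool.Agent.H261

open Pool.Agent.H576.RD

theorem rd_conn2 (h2 : S_T0) {r : ℝ} {X : Set E} (hX : Del r X) : Conn X 2 := by
  intro x hx y hy
  have key : ∀ n : ℕ, ∀ x ∈ X, ‖y - x‖ ^ 2 ≤ n * r ^ 2 →
      Relation.ReflTransGen (fun p q => q ∈ X ∧ ‖q - p‖ ≤ 2) x y := by
    intro n
    induction n with
    | zero =>
      intro x _ h
      refine Relation.ReflTransGen.single ⟨hy, ?_⟩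
      rw [Nat.cast_zero, zero_mul] at h
      have h0 := norm_nonneg (y - x)
      nlinarith
    | succ n ih =>
      intro x hx h
      by_cases hle : ‖y - x‖ ≤ 2
      · exact Relation.ReflTransGen.single ⟨hy, hle⟩
      · rw [not_le] at hle
        have hpos : 0 < ‖y - x‖ := by linarith
        obtain ⟨v, hv0, hv2, hvX, hv⟩ := h2 r X hX x hx ((‖y - x‖)⁻¹ • (y - x)) (by
          rw [norm_smul, norm_inv, norm_norm, inv_mul_cancel₀ hpos.ne'])
        have hrv : r ≤ ‖v‖ := by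
          have h5 := hX.sep x hx (x + v) hvX (by
            intro h
            exact hv0 (by simpa using h.symm))
          rwa [add_sub_cancel_left] at h5
        rw [inner_smul_right] at hv
        have h3 : ‖y - x‖ * ‖v‖ ^ 2 ≤ 2 * inner ℝ v (y - x) := by
          have h6 := mul_le_mul_of_nonneg_left hv hpos.le
          have h7 : ‖y - x‖ * (2 * (‖y - x‖⁻¹ * inner ℝ v (y - x))) =
              2 * inner ℝ v (y - x) := by
            field_simp
          rwa [h7] at h6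
        have h4 : ‖y - (x + v)‖ ^ 2 = ‖y - x‖ ^ 2 - 2 * inner ℝ v (y - x) + ‖v‖ ^ 2 := by
          have h8 : y - (x + v) = (y - x) - v := by abel
          rw [h8, norm_sub_sq_real, real_inner_comm]
        refine Relation.ReflTransGen.head ⟨hvX, ?_⟩ (ih (x + v) hvX ?_)
        · rwa [add_sub_cancel_left]
        · push_cast at h
          have h9 : r ^ 2 ≤ ‖v‖ ^ 2 := by
            have := hX.rpos
            nlinarith
          have h10 : 0 ≤ (‖y - x‖ - 2) * ‖v‖ ^ 2 :=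
            mul_nonneg (by linarith) (sq_nonneg _)
          nlinarith
  obtain ⟨n, hn⟩ := exists_nat_ge (‖y - x‖ ^ 2 / r ^ 2)
  have hr := hX.rpos
  exact key n x hx (by rwa [div_le_iff₀ (by positivity)] at hn)

theorem rd_rtg {X : Set E} {R R' : E → E → Prop} (hR : ∀ p q, R p q → q ∈ X)
    (hRR : ∀ p ∈ X, ∀ q ∈ X, R p q → Relation.ReflTransGen R' p q) {x : E} (hx : x ∈ X) {z : E}
    (h : Relation.ReflTransGen R x z) : z ∈ X ∧ Relation.ReflTransGen R' x z := by
  induction h with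
  | refl => exact ⟨hx, Relation.ReflTransGen.refl⟩
  | tail _ hbc ih =>
    exact ⟨hR _ _ hbc, ih.2.trans (hRR _ ih.1 _ (hR _ _ hbc) hbc)⟩

theorem rd_conn_of {X : Set E} {L M : ℝ} (h : Conn X L)
    (h' : ∀ p ∈ X, ∀ q ∈ X, ‖q - p‖ ≤ L →
      Relation.ReflTransGen (fun p q => q ∈ X ∧ ‖q - p‖ ≤ M) p q) : Conn X M :=
  fun x hx y hy => (rd_rtg (R := fun p q => q ∈ X ∧ ‖q - p‖ ≤ L) (fun _ _ h => h.1)
    (fun p hp q hq h => h' p hp q hq h.2) hx (h x hx y hy)).2

theorem rd_t4 (h1 : S_FINK) (h2 : S_T0) : S_T4 := by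
  intro r X hX hN
  obtain ⟨x0, hx0, -⟩ := hX.cov 0
  have hc2 : Conn X 2 := rd_conn2 h2 hX
  set D : Set ℝ := (fun v : E => ‖v‖) '' {v : E | ‖v‖ ≤ 2 ∧ x0 + v ∈ X} with hD
  have hDf : D.Finite := (h1 r X x0 2 hX).image _
  have hD0 : (0 : ℝ) ∈ D := ⟨0, ⟨by simp, by simpa using hx0⟩, by simp⟩
  have hDall : ∀ p ∈ X, ∀ q ∈ X, ‖q - p‖ ≤ 2 → ‖q - p‖ ∈ D := by
    intro p hp q hq h
    obtain ⟨g, hg⟩ := hN p hp x0 hx0
    have h3 := (hg (q - p) h).1 (by rwa [add_sub_cancel])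
    exact ⟨g (q - p), ⟨by rwa [LinearIsometryEquiv.norm_map], h3⟩,
      LinearIsometryEquiv.norm_map _ _⟩
  obtain ⟨m, hm, hmax⟩ := Set.exists_max_image D id hDf ⟨0, hD0⟩
  have hcm : Conn X m := rd_conn_of hc2 fun p hp q hq h =>
    Relation.ReflTransGen.single ⟨hq, hmax _ (hDall p hp q hq h)⟩
  obtain ⟨L, ⟨hLD, hLc⟩, hLmin⟩ := Set.exists_min_image {t | t ∈ D ∧ Conn X t} id
    (hDf.subset fun t ht => ht.1) ⟨m, hm, hcm⟩
  simp only [id] at hLmin hmax
  have hL0' : 0 ≤ L ∧ L ≤ 2 := by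
    obtain ⟨v, hv, rfl⟩ := hLD
    exact ⟨norm_nonneg _, hv.1⟩
  have hLne : L ≠ 0 := by
    rintro rfl
    obtain ⟨v, hv0, -, hvX, -⟩ := h2 r X hX x0 hx0 (EuclideanSpace.single (0 : Fin 3) (1 : ℝ))
      (by simp)
    have h3 := hLc x0 hx0 (x0 + v) hvX
    have h4 : ∀ z, Relation.ReflTransGen (fun p q => q ∈ X ∧ ‖q - p‖ ≤ 0) x0 z → z = x0 := by
      intro z hz
      induction hz with
      | refl => rfl
      | tail _ hbc ih =>
        have h5 := norm_le_zero_iff.1 hbc.2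
        rw [← ih]
        exact sub_eq_zero.1 h5
    have h5 := h4 _ h3
    exact hv0 (by simpa using h5)
  have hLpos : 0 < L := lt_of_le_of_ne hL0'.1 (Ne.symm hLne)
  -- the pair which is not connected by shorter steps
  obtain ⟨a, ha, b, hb, hab, hnc⟩ : ∃ a ∈ X, ∃ b ∈ X, ‖b - a‖ = L ∧
      ¬ Relation.ReflTransGen (fun p q => q ∈ X ∧ ‖q - p‖ < L) a b := by
    by_contra hcon
    push Not at hcon
    obtain ⟨M, ⟨hMD, hML⟩, hMmax⟩ := Set.exists_max_image {t | t ∈ D ∧ t < L} id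
      (hDf.subset fun t ht => ht.1) ⟨0, hD0, hLpos⟩
    simp only [id] at hMmax
    have hlt : ∀ p ∈ X, ∀ q ∈ X, ‖q - p‖ < L →
        Relation.ReflTransGen (fun p q => q ∈ X ∧ ‖q - p‖ ≤ M) p q := fun p hp q hq h =>
      Relation.ReflTransGen.single
        ⟨hq, hMmax _ ⟨hDall p hp q hq (h.le.trans hL0'.2), h⟩⟩
    have hcM : Conn X M := by
      refine rd_conn_of hLc fun p hp q hq h => ?_
      rcases h.lt_or_eq with h3 | h3
      · exact hlt p hp q hq h3
      · exact (rd_rtg (R := fun p q => q ∈ X ∧ ‖q - p‖ < L) (fun _ _ h => h.1)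
          (fun p hp q hq h => hlt p hp q hq h.2) hp (hcon p hp q hq h3)).2
    exact absurd (hLmin M ⟨hMD, hcM⟩) (not_le.2 hML)
  have hlens : ∀ z ∈ X, ‖z - a‖ < L → L ≤ ‖z - b‖ := by
    intro z hz hza
    by_contra hzb
    rw [not_le, norm_sub_rev] at hzb
    exact hnc ((Relation.ReflTransGen.single
      (r := fun p q => q ∈ X ∧ ‖q - p‖ < L) ⟨hz, hza⟩).tail ⟨hb, hzb⟩)
  refine ⟨L, hLpos, hL0'.2, hLc, fun x hx => ?_⟩
  obtain ⟨g, hg⟩ := hN a ha x hx
  refine ⟨x + g (b - a), ?_, ?_, fun z hz hzx => ?_⟩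
  · exact (hg (b - a) (hab.le.trans hL0'.2)).1 (by rwa [add_sub_cancel])
  · rw [add_sub_cancel_left, LinearIsometryEquiv.norm_map, hab]
  · have h3 : g (g.symm (z - x)) = z - x := g.apply_symm_apply _
    have h4 : ‖g.symm (z - x)‖ = ‖z - x‖ := g.symm.norm_map _
    have h5 := (hg (g.symm (z - x)) (by rw [h4]; linarith [hL0'.2])).2 (by
      rw [h3, add_sub_cancel]; exact hz)
    have h6 := hlens _ h5 (by rw [add_sub_cancel_left, h4]; exact hzx)
    have h7 : z - (x + g (b - a)) = g (a + g.symm (z - x) - b) := by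
      have h8 : a + g.symm (z - x) - b = g.symm (z - x) - (b - a) := by abel
      have h9 : g (g.symm (z - x) - (b - a)) = (z - x) - g (b - a) := by
        rw [map_sub g (g.symm (z - x)) (b - a), h3]
      rw [h8, h9]
      abel
    rw [h7, LinearIsometryEquiv.norm_map]
    exact h6

end Pool.Agent.H261
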