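import Pool.Agent.H133.ZM.Stm

set_option autoImplicit false

/-!
Project ZM (helper133): S_nu, by helper261.
-/

namespace Pool.Agent.H261.ZM

open Finset Pool.Agent.H133.ZM

/-- ordered non-adjacent pairs -/
theorem pairs_le {V : Type} [Fintype V] [DecidableEq V] (G : SimpleGraph V) (K : Finset V)
    (f : V → ℕ) (h : ∀ u v, u ∈ K → v ∈ K → G.Adj u v → f u = f v) :
    ((K ×ˢ K).filter (fun p => f p.1 ≠ f p.2)).card ≤ 2 * mis G := by
  classical
  have h1 : (K ×ˢ K).filter (fun p => f p.1 ≠ f p.2) ⊆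
      (Finset.univ : Finset (Gᶜ).Dart).image (fun d => d.toProd) := by
    intro p hp
    rw [Finset.mem_filter, Finset.mem_product] at hp
    obtain ⟨⟨hu, hv⟩, hf⟩ := hp
    have hadj : (Gᶜ).Adj p.1 p.2 := by
      rw [SimpleGraph.compl_adj]
      exact ⟨fun e => hf (by rw [e]), fun hG => hf (h _ _ hu hv hG)⟩
    exact Finset.mem_image.2 ⟨⟨p, hadj⟩, Finset.mem_univ _, rfl⟩
  refine (Finset.card_le_card h1).trans (Finset.card_image_le.trans ?_)
  rw [Finset.card_univ, SimpleGraph.dart_card_eq_twice_card_edges]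
  unfold mis
  rw [Set.ncard_eq_toFinset_card']
  rfl

theorem num1 (x y t : ℕ) (h2 : 2 ≤ x + y) (ht : t ≤ x + y)
    (h : (3 * x + 2 * y + t) * (3 * x + 6 * y + t + 1) + 2 ≤
      2 * (t + 1) * (4 * (x + y) + 1) + (t + 1) * t) : False := by
  obtain ⟨z, hz⟩ : ∃ z, x + y = t + z := ⟨x + y - t, by omega⟩
  have h1 : 0 ≤ (x : ℤ) * y := by positivity
  have h3 : (x : ℤ) + y = t + z := by exact_mod_cast hz
  have h4 : (2 : ℤ) ≤ x + y := by exact_mod_cast h2
  have h5 : ((3 : ℤ) * x + 2 * y + t) * (3 * x + 6 * y + t + 1) + 2 ≤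
      2 * (t + 1) * (4 * (x + y) + 1) + (t + 1) * t := by exact_mod_cast h
  have h6 : 0 ≤ (z : ℤ) * x := by positivity
  have h7 : 0 ≤ (z : ℤ) * y := by positivity
  nlinarith

theorem num2 (r t : ℕ) (ht : t ≤ r)
    (h : (4 * r + 1 + (t + 1)) * (2 * r + 1 + 1) + 2 ≤ 2 * (t + 1) * (4 * r + 1) + (t + 1) * t) :
    False := by
  obtain ⟨z, rfl⟩ : ∃ z, r = t + z := ⟨r - t, by omega⟩
  nlinarith

theorem t_nu (h : S_part) : S_nu := by
  classical
  intro hTB m t hm hodd ht3 ht V _ _ G hV hdeg hmis
  by_contra hcon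
  have hsmall : ∀ M, IsM G M → M.card ≤ LL m := by
    intro M hM
    by_contra hlt
    have hlt' : LL m + 1 ≤ M.card := by omega
    obtain ⟨M', hM', hc⟩ := Finset.exists_subset_card_eq hlt'
    exact hcon ⟨M', ⟨fun e he => hM.1 e (hM' he),
      fun e he f hf => hM.2 e (hM' he) f (hM' hf)⟩, hc⟩
  obtain ⟨A, f, hf, hsum⟩ := hTB V G (LL m) hsmall
  obtain ⟨r, hr⟩ := hodd
  have hL : LL m = 3 * r + 1 := by unfold LL; omega
  set K := Aᶜ with hK
  set I := K.image f with hI
  have hNK : K.card + A.card = 3 * m - 2 + t := by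
    rw [← hV, hK, Finset.card_compl]
    have := Finset.card_le_univ A
    omega
  have hsz : K.card = ∑ i ∈ I, (K.filter (fun v => f v = i)).card :=
    Finset.card_eq_sum_card_image f K
  have hN2 : K.card ≤ 2 * (∑ i ∈ I, (K.filter (fun v => f v = i)).card / 2) + I.card := by
    rw [hsz, Finset.mul_sum, Finset.card_eq_sum_ones, ← Finset.sum_add_distrib]
    exact Finset.sum_le_sum (fun i _ => by omega)
  have hIc : A.card + t ≤ I.card + 1 := by
    rw [hL] at hsum
    omega
  have hIK : I.card ≤ K.card := Finset.card_image_le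
  have hP : ((K ×ˢ K).filter (fun p => f p.1 ≠ f p.2)).card ≤ 2 * mis G :=
    pairs_le G K f (fun u v hu hv => hf u v (Finset.mem_compl.1 hu) (Finset.mem_compl.1 hv))
  set a := A.card with ha
  set N := K.card with hN
  rcases le_or_gt m a with hma | hma
  · -- the case `m ≤ a`
    have hc : a + t - 1 ≤ I.card := by omega
    have h1 := (h V K f (a + t - 1) hc).trans hP
    obtain ⟨x, hx⟩ : ∃ x, a = 2 * r + 1 + x := ⟨a - (2 * r + 1), by omega⟩
    have hxr : x ≤ r := by omega
    have e1 : a + t - 1 - 1 = x + 2 * r + t - 1 := by omega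
    have e2 : 2 * N - (a + t - 1) = 6 * r + t - 3 * x := by omega
    rw [← hN, e1, e2] at h1
    have h2 : 2 * mis G + 2 ≤ 2 * t * (2 * m - 1) + t * (t - 1) := hmis
    have h3 : (x + 2 * r + t - 1) * (6 * r + t - 3 * x) + 2 ≤ 2 * t * (2 * m - 1) + t * (t - 1) := by
      omega
    have hr2 : 2 ≤ r := by omega
    have htr : t ≤ r + 1 := by omega
    obtain ⟨t', rfl⟩ : ∃ t', t = t' + 1 := ⟨t - 1, by omega⟩
    obtain ⟨y, rfl⟩ : ∃ y, r = x + y := ⟨r - x, by omega⟩
    have e3 : x + 2 * (x + y) + (t' + 1) - 1 = 3 * x + 2 * y + t' := by omega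
    have e4 : 6 * (x + y) + (t' + 1) - 3 * x = 3 * x + 6 * y + t' + 1 := by omega
    have e5 : 2 * m - 1 = 4 * (x + y) + 1 := by omega
    have e6 : t' + 1 - 1 = t' := by omega
    rw [e3, e4, e5, e6] at h3
    have htr' : t' ≤ x + y := by omega
    have ht3' : 2 ≤ t' := by omega
    exact num1 x y t' (by omega) htr' h3
  · -- the case `a ≤ m - 1`
    have hcl : ∀ i ∈ I, m + 1 ≤ a + (K.filter (fun v => f v = i)).card := by
      intro i hi
      obtain ⟨v, hv, rfl⟩ := Finset.mem_image.1 hi
      have h1 := hdeg v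
      unfold dg at h1
      have h2 : (G.neighborSet v) ⊆
          ((A ∪ (K.filter (fun w => f w = f v)).erase v : Finset V) : Set V) := by
        intro w hw
        have hw' : G.Adj v w := hw
        rw [Finset.mem_coe, Finset.mem_union]
        by_cases hwA : w ∈ A
        · exact Or.inl hwA
        · right
          rw [Finset.mem_erase, Finset.mem_filter]
          exact ⟨hw'.ne', Finset.mem_compl.2 hwA,
            (hf v w (Finset.mem_compl.1 hv) hwA hw').symm⟩
      have h3 := Set.ncard_le_ncard h2 (Finset.finite_toSet _)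
      rw [Set.ncard_coe_finset] at h3
      have h4 := Finset.card_union_le A ((K.filter (fun w => f w = f v)).erase v)
      have h5 : v ∈ K.filter (fun w => f w = f v) := Finset.mem_filter.2 ⟨hv, rfl⟩
      have h6 := Finset.card_erase_of_mem h5
      have h7 : 0 < (K.filter (fun w => f w = f v)).card := Finset.card_pos.2 ⟨v, h5⟩
      omega
    have hrow : ∀ u ∈ K, (a + t - 2) * (m + 1 - a) ≤ (K.filter (fun v => f u ≠ f v)).card := by
      intro u hu
      have hfu : f u ∈ I := Finset.mem_image_of_mem f hu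
      have h1 : (K.filter (fun v => f u ≠ f v)).card + (K.filter (fun v => f v = f u)).card = N := by
        have h2 := Finset.card_filter_add_card_filter_not (s := K) (fun v => f v = f u)
        have h3 : K.filter (fun v => ¬ f v = f u) = K.filter (fun v => f u ≠ f v) := by
          apply Finset.filter_congr
          intro v _
          exact ⟨fun h e => h e.symm, fun h e => h e.symm⟩
        rw [h3] at h2
        omega
      have h4 : N = (K.filter (fun v => f v = f u)).card +
          ∑ i ∈ I.erase (f u), (K.filter (fun v => f v = i)).card := by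
        rw [hsz, Finset.add_sum_erase I (fun i => (K.filter (fun v => f v = i)).card) hfu]
      have h5 : (I.erase (f u)).card • (m + 1 - a) ≤
          ∑ i ∈ I.erase (f u), (K.filter (fun v => f v = i)).card := by
        apply Finset.card_nsmul_le_sum
        intro i hi
        have := hcl i (Finset.mem_of_mem_erase hi)
        omega
      rw [Finset.card_erase_of_mem hfu, smul_eq_mul] at h5
      have h6 : (a + t - 2) * (m + 1 - a) ≤ (I.card - 1) * (m + 1 - a) :=
        Nat.mul_le_mul_right _ (by omega)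
      omega
    have hPeq : ((K ×ˢ K).filter (fun p => f p.1 ≠ f p.2)).card =
        ∑ u ∈ K, (K.filter (fun v => f u ≠ f v)).card := by
      rw [Finset.card_filter, Finset.sum_product]
      exact Finset.sum_congr rfl (fun u _ => by rw [Finset.card_filter])
    have hP2 : N * ((a + t - 2) * (m + 1 - a)) ≤ 2 * mis G := by
      refine le_trans ?_ hP
      rw [hPeq, ← smul_eq_mul]
      exact Finset.card_nsmul_le_sum _ _ _ hrow
    have hq : m + 1 ≤ (a + t - 2) * (m + 1 - a) := by
      obtain ⟨y, hy⟩ : ∃ y, m = a + y := ⟨m - a, by omega⟩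
      have e1 : m + 1 - a = y + 1 := by omega
      rw [e1]
      have h1 : a + 1 ≤ a + t - 2 := by omega
      have h2 : (a + 1) * (y + 1) ≤ (a + t - 2) * (y + 1) := Nat.mul_le_mul_right _ h1
      have h3 : m + 1 ≤ (a + 1) * (y + 1) := by rw [hy]; nlinarith
      omega
    have hP3 : N * (m + 1) ≤ 2 * mis G := le_trans (Nat.mul_le_mul_left _ hq) hP2
    have hN4 : 4 * r + 1 + t ≤ N := by omega
    have hP4 : (4 * r + 1 + t) * (m + 1) ≤ 2 * mis G := le_trans (Nat.mul_le_mul_right _ hN4) hP3
    have h3 : (4 * r + 1 + t) * (m + 1) + 2 ≤ 2 * t * (2 * m - 1) + t * (t - 1) := by omega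
    obtain ⟨t', rfl⟩ : ∃ t', t = t' + 1 := ⟨t - 1, by omega⟩
    have e5 : 2 * m - 1 = 4 * r + 1 := by omega
    have e6 : t' + 1 - 1 = t' := by omega
    rw [e5, e6, hr] at h3
    have htr' : t' ≤ r := by omega
    have hr2 : 2 ≤ r := by omega
    exact num2 r t' htr' h3

end Pool.Agent.H261.ZM
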